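import Pool.Agent.Run7.h835.RR.I

/-!
# Triples of the numbers `5 w, t, 10 w ^ 2, 5 w t`
-/

set_option autoImplicit false

namespace Run7.h835.RR

open Finset Filter Run7.h683.AB Run7.h683.MR MeasureTheory ProbabilityTheory Topology Polynomial Matrix
open Pool.Agent.Y957.VK (dz mn)

theorem frm_add (f g : Fin 5 → ℤ) : frm (f + g) = frm f + frm g := by
  funext i
  fin_cases i
  · show (C (5 * (f 0 + g 0)) * X + C (10 * (f 2 + g 2)) * X ^ 2 : ℤ[X]) =
      (C (5 * f 0) * X + C (10 * f 2) * X ^ 2) + (C (5 * g 0) * X + C (10 * g 2) * X ^ 2)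
    simp only [mul_add, C_add]
    ring
  · show (C (f 1 + g 1) + C (5 * (f 4 + g 4)) * X : ℤ[X]) = (C (f 1) + C (5 * f 4) * X) + (C (g 1) + C (5 * g 4) * X)
    simp only [mul_add, C_add]
    ring
  · show (C (f 3 + g 3) : ℤ[X]) = C (f 3) + C (g 3)
    exact C_add

/-- `frm` as a homomorphism -/
noncomputable def frmHom : (Fin 5 → ℤ) →+ (Fin 3 → ℤ[X]) := AddMonoidHom.mk' frm frm_add

theorem frm_sum {m : ℕ} (f : Fin m → Fin 5 → ℤ) (c : Fin m → ℤ) :
    ∑ j, C (c j) • frm (f j) = frm (∑ j, c j • f j) := by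
  have h1 : frm (∑ j, c j • f j) = ∑ j, c j • frm (f j) := by
    show frmHom (∑ j, c j • f j) = ∑ j, c j • frmHom (f j)
    rw [map_sum]
    exact Finset.sum_congr rfl fun j _ => map_zsmul frmHom (c j) (f j)
  rw [h1]
  refine Finset.sum_congr rfl fun j _ => ?_
  funext i
  rw [Pi.smul_apply, Pi.smul_apply, smul_eq_mul, zsmul_eq_mul, eq_intCast C (c j)]

/-- the unit vectors with the indices `i, j, k` -/
def tri (i j k : Fin 5) : Fin 3 → Fin 5 → ℤ := ![Pi.single i 1, Pi.single j 1, Pi.single k 1]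

theorem tri_bound (i j k : Fin 5) (l : Fin 3) (n : Fin 5) : |tri i j k l n| ≤ ((1 : ℕ) : ℤ) := by
  have h : ∀ i n : Fin 5, |(Pi.single i 1 : Fin 5 → ℤ) n| ≤ ((1 : ℕ) : ℤ) := by
    intro i n
    rw [Pi.single_apply]
    split_ifs
    · simp
    · simp
  fin_cases l
  · exact h i n
  · exact h j n
  · exact h k n

theorem tri_sum (i j k : Fin 5) (c : Fin 3 → ℤ) (n : Fin 5) : (∑ l, c l • tri i j k l) n =
    (if n = i then c 0 else 0) + (if n = j then c 1 else 0) + if n = k then c 2 else 0 := by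
  rw [Fin.sum_univ_three]
  show c 0 • (Pi.single i 1 : Fin 5 → ℤ) n + c 1 • (Pi.single j 1 : Fin 5 → ℤ) n + c 2 • (Pi.single k 1 : Fin 5 → ℤ) n = _
  simp only [Pi.single_apply, smul_eq_mul, mul_ite, mul_one, mul_zero]

/-- triples of the four numbers -/
theorem triples {a b : ℝ} (ha : 0 < a) (hab : a < b) {w t : ℝ} (hw : MT w) (hM : Meas3 w t) (t' : ℝ) {p : ℕ → ℕ}
    (h : ∀ (J m L H : ℕ) (ε : ℝ), 0 < ε → ∀ᶠ N : ℕ in atTop,
      ∀ f : Fin m → Fin (2 + 1) → ℤ[X], (∀ j i, (f j i).natDegree ≤ J) → (∀ j i l, |(f j i).coeff l| ≤ (H : ℤ)) →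
        IndepMod (El J w ![t, t'] a b N) f → Words p (fun j => ev w ![t, t'] (f j)) L N ε) (L : ℕ) (ε : ℝ)
    (hε : 0 < ε) : ∀ᶠ N : ℕ in atTop,
      Words p (fun j => ev w ![t, t'] (frm (tri 0 1 2 j))) L N ε ∨
        (Words p (fun j => ev w ![t, t'] (frm (tri 0 1 4 j))) L N ε ∧
          Words p (fun j => ev w ![t, t'] (frm (tri 0 2 4 j))) L N ε) := by
  filter_upwards [h 2 3 L (10 * 1) ε hε, el_four ha hab hw hM 2 t', el_two ha hab hw hM 2 t',
    sat_small ha hab hw 2 ![t, t']] with N g1 g4 g2 g0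
  -- a triple which is not equidistributed
  have key : ∀ i j k : Fin 5, ¬ Words p (fun l => ev w ![t, t'] (frm (tri i j k l))) L N ε →
      ∃ (c : Fin 3 → ℤ) (κ : ℤ), c ≠ 0 ∧ cv (∑ l, c l • tri i j k l) 1 κ ∈ El 2 w ![t, t'] a b N := by
    intro i j k hW
    by_contra hcon
    push Not at hcon
    refine hW (g1 (fun l => frm (tri i j k l)) (fun l n => (frm_bound _ (tri_bound i j k l) n).1)
      (fun l n => (frm_bound _ (tri_bound i j k l) n).2) ?_)
    intro c κ hc hmem
    refine hcon c κ hc ?_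
    rw [frm_sum] at hmem
    rw [cv, C_1, one_smul]
    exact hmem
  -- no exceptional forms in two of the numbers
  have two : ∀ (f : Fin 5 → ℤ) (κ : ℤ), cv f 1 κ ∈ El 2 w ![t, t'] a b N → f 3 = 0 → f 4 = 0 → f 1 = 0 ∨ f 2 = 0 →
      f = 0 := by
    intro f κ hmem h3 h4 h12
    obtain ⟨c0, c2, c1, c4, c3⟩ := cv_coeff f 1 κ
    have hz2 : cv f 1 κ 2 = 0 := by
      have h2 := eq_C_of_natDegree_eq_zero (cv_low f 1 κ).2.2
      rw [c3, h3, mul_zero, C_0] at h2
      exact h2
    have hv : cv f 1 κ = 0 := by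
      rcases h12 with h1 | h2
      · refine g0 _ (span_el (Submodule.subset_span hmem)) fun j => ?_
        fin_cases j
        · refine poly_zero (cv_low f 1 κ).2.1 ?_ ?_
          · show (cv f 1 κ 1).coeff 0 = 0
            rw [c1, h1, mul_zero]
          · show (cv f 1 κ 1).coeff 1 = 0
            rw [c4, h4, mul_zero, mul_zero]
        · exact hz2
      · refine g2 _ hmem ?_ ?_ hz2
        · rw [natDegree_le_iff_coeff_eq_zero]
          intro l hl
          by_cases hl2 : l = 2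
          · rw [hl2, c2, h2, mul_zero, mul_zero]
          · exact coeff_eq_zero_of_natDegree_lt (lt_of_le_of_lt (cv_low f 1 κ).1 (by omega))
        · have h5 : (cv f 1 κ 1).natDegree ≤ 0 := by
            rw [natDegree_le_iff_coeff_eq_zero]
            intro l hl
            by_cases hl1 : l = 1
            · rw [hl1, c4, h4, mul_zero, mul_zero]
            · exact coeff_eq_zero_of_natDegree_lt (lt_of_le_of_lt (cv_low f 1 κ).2.1 (by omega))
          omega
    rw [hv] at c0 c1 c2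
    have z : ∀ l (i : Fin 3), ((0 : Fin 3 → ℤ[X]) i).coeff l = 0 := fun l i => by rw [Pi.zero_apply, coeff_zero]
    rw [z] at c0 c1 c2
    funext i
    fin_cases i
    · show f 0 = 0
      omega
    · show f 1 = 0
      omega
    · show f 2 = 0
      omega
    · exact h3
    · exact h4
  -- two exceptional forms without `t'` are proportional
  have prop : ∀ (f f' : Fin 5 → ℤ) (κ κ' : ℤ), cv f 1 κ ∈ El 2 w ![t, t'] a b N → cv f' 1 κ' ∈ El 2 w ![t, t'] a b N →
      f 3 = 0 → f' 3 = 0 → f ≠ 0 → f' ≠ 0 → ∃ u u' : ℤ, u ≠ 0 ∧ u' ≠ 0 ∧ ∀ i, u * f i = u' * f' i := by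
    intro f f' κ κ' hm hm' h3 h3' h0 h0'
    have hz : ∀ (f : Fin 5 → ℤ) (κ : ℤ), f 3 = 0 → cv f 1 κ 2 = 0 := by
      intro f κ h3
      have h1 := (cv_coeff f 1 κ).2.2.2.2
      rw [h3, mul_zero] at h1
      have h2 := eq_C_of_natDegree_eq_zero (cv_low f 1 κ).2.2
      rw [h1, C_0] at h2
      exact h2
    obtain ⟨u, u', hu, hrel⟩ := g4 _ hm _ hm' (cv_low _ _ _).1 (cv_low _ _ _).2.1 (hz f κ h3) (cv_low _ _ _).1
      (cv_low _ _ _).2.1 (hz f' κ' h3')
    have hx := cv_rel ![f, f'] ![1, 1] ![κ, κ'] ![u, -u'] (by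
      rw [Fin.sum_univ_two]
      show u • cv f 1 κ + (-u') • cv f' 1 κ' = 0
      rw [hrel]
      simp)
    have hall : ∀ i, u * f i = u' * f' i := by
      intro i
      have h1 := congrFun hx i
      rw [Fin.sum_univ_two] at h1
      have h2 : (u * 1) * f i + (-u' * 1) * f' i = 0 := h1
      linarith
    refine ⟨u, u', ?_, ?_, hall⟩
    · intro hu0
      rw [hu0] at hu
      have hu' := hu.resolve_left (fun h => h rfl)
      apply h0'
      funext i
      have h1 := hall i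
      rw [hu0, zero_mul] at h1
      exact (mul_eq_zero.1 h1.symm).resolve_left hu'
    · intro hu0
      rw [hu0] at hu
      have hu' := hu.resolve_right (fun h => h rfl)
      apply h0
      funext i
      have h1 := hall i
      rw [hu0, zero_mul] at h1
      exact (mul_eq_zero.1 h1).resolve_left hu'
  -- nonzero combinations of different unit vectors
  have hne : ∀ (i j k : Fin 5) (c : Fin 3 → ℤ), i ≠ j → i ≠ k → j ≠ k → c ≠ 0 → ∑ l, c l • tri i j k l ≠ 0 := by
    intro i j k c hij hik hjk hc h0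
    apply hc
    have h1 := tri_sum i j k c i
    have h2 := tri_sum i j k c j
    have h3 := tri_sum i j k c k
    rw [h0, Pi.zero_apply, if_pos rfl, if_neg hij, if_neg hik] at h1
    rw [h0, Pi.zero_apply, if_pos rfl, if_neg hij.symm, if_neg hjk] at h2
    rw [h0, Pi.zero_apply, if_pos rfl, if_neg hik.symm, if_neg hjk.symm] at h3
    funext l
    fin_cases l
    · show c 0 = 0
      linarith
    · show c 1 = 0
      linarith
    · show c 2 = 0
      linarith
  by_cases hT : Words p (fun j => ev w ![t, t'] (frm (tri 0 1 2 j))) L N ε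
  · exact Or.inl hT
  obtain ⟨c, κ, hc, hmem⟩ := key 0 1 2 hT
  have hF0 := hne 0 1 2 c (by decide) (by decide) (by decide) hc
  have s1 := tri_sum 0 1 2 c 1
  have s2 := tri_sum 0 1 2 c 2
  have s3 : (∑ l, c l • tri 0 1 2 l) 3 = 0 := by
    rw [tri_sum]
    rfl
  have s4 : (∑ l, c l • tri 0 1 2 l) 4 = 0 := by
    rw [tri_sum]
    rfl
  refine Or.inr ⟨?_, ?_⟩
  · by_contra hT'
    obtain ⟨c', κ', hc', hmem'⟩ := key 0 1 4 hT'
    have hF0' := hne 0 1 4 c' (by decide) (by decide) (by decide) hc'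
    have s3' : (∑ l, c' l • tri 0 1 4 l) 3 = 0 := by
      rw [tri_sum]
      rfl
    have s2' : (∑ l, c' l • tri 0 1 4 l) 2 = 0 := by
      rw [tri_sum]
      rfl
    obtain ⟨u, u', hu, hu', hall⟩ := prop _ _ κ κ' hmem hmem' s3 s3' hF0 hF0'
    have h2 := hall 2
    rw [s2', mul_zero] at h2
    exact hF0 (two _ κ hmem s3 s4 (Or.inr ((mul_eq_zero.1 h2).resolve_left hu)))
  · by_contra hT'
    obtain ⟨c', κ', hc', hmem'⟩ := key 0 2 4 hT'
    have hF0' := hne 0 2 4 c' (by decide) (by decide) (by decide) hc'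
    have s3' : (∑ l, c' l • tri 0 2 4 l) 3 = 0 := by
      rw [tri_sum]
      rfl
    have s1' : (∑ l, c' l • tri 0 2 4 l) 1 = 0 := by
      rw [tri_sum]
      rfl
    obtain ⟨u, u', hu, hu', hall⟩ := prop _ _ κ κ' hmem hmem' s3 s3' hF0 hF0'
    have h2 := hall 1
    rw [s1', mul_zero] at h2
    exact hF0 (two _ κ hmem s3 s4 (Or.inl ((mul_eq_zero.1 h2).resolve_left hu)))

end Run7.h835.RR
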