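import Mathlib

/-!
# Exceptional modules: linear algebra over a domain
-/

set_option autoImplicit false

namespace Run7.h835.RR

open Matrix

/-- the saturation of the span of a set of vectors -/
def Sat {R : Type*} [CommRing R] {n : ℕ} (S : Set (Fin n → R)) : Set (Fin n → R) :=
  {v | ∃ P : R, P ≠ 0 ∧ P • v ∈ Submodule.span R S}

/-- a matrix whose rows are elements of `S` and unit vectors, with a nonzero determinant, such that the coordinates of the
elements of `Sat S` at the unit vectors vanish -/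
theorem exists_frame {R : Type*} [CommRing R] [IsDomain R] {n : ℕ} (S : Set (Fin n → R)) :
    ∃ (I : Finset (Fin n)) (M : Matrix (Fin n) (Fin n) R), (∀ i ∈ I, M i ∈ S) ∧
      (∀ i, i ∉ I → M i = Pi.single i 1) ∧ M.det ≠ 0 ∧ ∀ v ∈ Sat S, ∀ i, i ∉ I → (cramer Mᵀ) v i = 0 := by
  classical
  obtain ⟨Q, hQ⟩ : ∃ Q : ℕ → Prop, ∀ c, Q c ↔ ∃ (I : Finset (Fin n)) (M : Matrix (Fin n) (Fin n) R), I.card = c ∧
      (∀ i ∈ I, M i ∈ S) ∧ (∀ i, i ∉ I → M i = Pi.single i 1) ∧ M.det ≠ 0 := ⟨_, fun c => Iff.rfl⟩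
  have h0 : Q 0 := by
    rw [hQ]
    refine ⟨∅, 1, rfl, by simp, fun i _ => ?_, by simp⟩
    funext j
    rw [Matrix.one_apply, Pi.single_apply]
    simp [eq_comm]
  have hn : ∀ c, Q c → c ≤ n := by
    intro c hc
    rw [hQ] at hc
    obtain ⟨I, _, hI, _⟩ := hc
    rw [← hI]
    exact (Finset.card_le_univ I).trans (by simp)
  obtain ⟨c, hc, hmax⟩ : ∃ c, Q c ∧ ∀ c', Q c' → c' ≤ c := by
    have hd : DecidablePred Q := Classical.decPred Q
    refine ⟨Nat.findGreatest Q n, Nat.findGreatest_spec (Nat.zero_le n) h0, fun c' hc' =>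
      Nat.le_findGreatest (hn c' hc') hc'⟩
  rw [hQ] at hc
  obtain ⟨I, M, hI, hM, hM1, hdet⟩ := hc
  refine ⟨I, M, hM, hM1, hdet, ?_⟩
  have h1 : ∀ u ∈ S, ∀ i, i ∉ I → (cramer Mᵀ) u i = 0 := by
    intro u hu i hi
    rw [Matrix.cramer_transpose_apply]
    by_contra hne
    have h2 : Q (c + 1) := by
      rw [hQ]
      refine ⟨insert i I, M.updateRow i u, by rw [Finset.card_insert_of_notMem hi, hI], ?_, ?_, hne⟩
      · intro j hj
        rw [Finset.mem_insert] at hj
        by_cases hji : j = i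
        · subst hji
          rw [Matrix.updateRow_self]
          exact hu
        · rw [Matrix.updateRow_ne hji]
          exact hM j (hj.resolve_left hji)
      · intro j hj
        rw [Finset.mem_insert, not_or] at hj
        rw [Matrix.updateRow_ne hj.1]
        exact hM1 j hj.2
    have := hmax _ h2
    omega
  have h2 : ∀ u ∈ Submodule.span R S, ∀ i, i ∉ I → (cramer Mᵀ) u i = 0 := by
    intro u hu i hi
    have h3 : Submodule.span R S ≤ LinearMap.ker ((LinearMap.proj i).comp (cramer Mᵀ)) := by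
      rw [Submodule.span_le]
      intro u hu
      exact h1 u hu i hi
    exact h3 hu
  rintro v ⟨P, hP, hv⟩ i hi
  have h3 := h2 _ hv i hi
  rw [map_smul, Pi.smul_apply, smul_eq_mul] at h3
  exact (mul_eq_zero.1 h3).resolve_left hP

/-- if `Sat S` contains a nonzero multiple of the first unit vector, then `det M` is a combination of the values of an
arbitrary linear functional at elements of `S` -/
theorem exists_relation {R : Type*} [CommRing R] [IsDomain R] {n : ℕ} (S : Set (Fin (n + 1) → R)) (A : R) (hA : A ≠ 0)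
    (h : (Pi.single 0 A : Fin (n + 1) → R) ∈ Sat S) :
    ∃ (I : Finset (Fin (n + 1))) (M : Matrix (Fin (n + 1)) (Fin (n + 1)) R), (∀ i ∈ I, M i ∈ S) ∧
      (∀ i, i ∉ I → M i = Pi.single i 1) ∧ M.det ≠ 0 ∧
      (Pi.single 0 M.det : Fin (n + 1) → R) = ∑ i ∈ I, (M.updateRow i (Pi.single 0 1)).det • M i := by
  classical
  obtain ⟨I, M, hM, hM1, hdet, hc⟩ := exists_frame S
  refine ⟨I, M, hM, hM1, hdet, ?_⟩
  have h1 : ∀ i, i ∉ I → (cramer Mᵀ) (Pi.single 0 1) i = 0 := by
    intro i hi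
    have h2 := hc _ h i hi
    have h3 : (Pi.single 0 A : Fin (n + 1) → R) = A • Pi.single 0 1 := by
      funext j
      rw [Pi.smul_apply, Pi.single_apply, Pi.single_apply]
      split_ifs <;> simp
    rw [h3, map_smul, Pi.smul_apply, smul_eq_mul] at h2
    exact (mul_eq_zero.1 h2).resolve_left hA
  have h2 := Matrix.mulVec_cramer Mᵀ (Pi.single 0 1 : Fin (n + 1) → R)
  rw [Matrix.det_transpose] at h2
  have h3 : (Pi.single 0 M.det : Fin (n + 1) → R) = M.det • Pi.single 0 1 := by
    funext j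
    rw [Pi.smul_apply, Pi.single_apply, Pi.single_apply]
    split_ifs <;> simp
  rw [h3, ← h2]
  funext j
  rw [Matrix.mulVec, Finset.sum_apply]
  show ∑ i, M i j * (cramer Mᵀ) (Pi.single 0 1) i = _
  rw [← Finset.sum_subset (Finset.subset_univ I)]
  · refine Finset.sum_congr rfl fun i _ => ?_
    rw [Matrix.cramer_transpose_apply, Pi.smul_apply, smul_eq_mul, mul_comm]
  · intro i _ hi
    rw [h1 i hi, mul_zero]

/-- `n + 1` vectors of `Sat S` have determinant zero, if `Sat S` contains no nonzero multiple of the first unit vector -/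
theorem det_eq_zero {R : Type*} [CommRing R] [IsDomain R] {n : ℕ} (S : Set (Fin (n + 1) → R))
    (h : ∀ v ∈ Sat S, (∀ j : Fin n, v j.succ = 0) → v = 0) (M : Matrix (Fin (n + 1)) (Fin (n + 1)) R)
    (hM : ∀ i, M i ∈ Sat S) : M.det = 0 := by
  classical
  by_contra hdet
  choose P hP hPM using hM
  obtain ⟨Q, hQ⟩ : ∃ Q : R, Q = ∏ i, P i := ⟨_, rfl⟩
  have hQ0 : Q ≠ 0 := by
    rw [hQ]
    exact Finset.prod_ne_zero_iff.2 fun i _ => hP i
  have h1 : ∀ i, Q • M i ∈ Submodule.span R S := by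
    intro i
    have h2 : Q = (∏ j ∈ Finset.univ.erase i, P j) * P i := by
      rw [hQ, mul_comm, Finset.mul_prod_erase _ _ (Finset.mem_univ i)]
    rw [h2, mul_smul]
    exact Submodule.smul_mem _ _ (hPM i)
  have h2 := Matrix.mulVec_cramer Mᵀ (Pi.single 0 1 : Fin (n + 1) → R)
  rw [Matrix.det_transpose] at h2
  have h3 : (Pi.single 0 M.det : Fin (n + 1) → R) = M.det • Pi.single 0 1 := by
    funext j
    rw [Pi.smul_apply, Pi.single_apply, Pi.single_apply]
    split_ifs <;> simp
  have h4 : (Pi.single 0 M.det : Fin (n + 1) → R) ∈ Sat S := by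
    refine ⟨Q, hQ0, ?_⟩
    have h5 : Q • (Pi.single 0 M.det : Fin (n + 1) → R) = ∑ i, ((cramer Mᵀ) (Pi.single 0 1) i) • (Q • M i) := by
      rw [h3, ← h2]
      funext j
      rw [Pi.smul_apply, Finset.sum_apply, Matrix.mulVec, smul_eq_mul, dotProduct, Finset.mul_sum]
      refine Finset.sum_congr rfl fun i _ => ?_
      rw [Pi.smul_apply, Pi.smul_apply, smul_eq_mul, smul_eq_mul, Matrix.transpose_apply]
      ring
    rw [h5]
    exact Submodule.sum_mem _ fun i _ => Submodule.smul_mem _ _ (h1 i)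
  have h5 := h _ h4 (fun j => by
    rw [Pi.single_apply, if_neg (Fin.succ_ne_zero j)])
  have h6 := congrFun h5 0
  rw [Pi.single_eq_same, Pi.zero_apply] at h6
  exact hdet h6

end Run7.h835.RR
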