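import Pool.Agent.Run7.h683.MR.T
import Pool.Agent.Run7.h835.RR.A

/-!
# Exceptional modules of forms in several arbitrary numbers over a field with a transcendence measure
-/

set_option autoImplicit false

namespace Run7.h835.RR

open Finset Filter Run7.h683.AB Run7.h683.MR MeasureTheory ProbabilityTheory Topology Polynomial Matrix
open Pool.Agent.Y957.VK (dz mn)

/-- uniform bound for determinants -/
theorem det_bound (n J : ℕ) : ∃ D E e : ℕ, ∀ (M : Matrix (Fin n) (Fin n) ℤ[X]) (H : ℕ), 1 ≤ H →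
    (∀ i j, (M i j).natDegree ≤ J) → (∀ i j l, |(M i j).coeff l| ≤ (H : ℤ)) →
    M.det.natDegree ≤ D ∧ ∀ l, |M.det.coeff l| ≤ (E : ℤ) * (H : ℤ) ^ e := by
  classical
  obtain ⟨G, hG⟩ : ∃ G : Matrix (Fin n) (Fin n) (MvPolynomial (Fin n × Fin n × Fin (J + 1)) ℤ[X]),
    G = Matrix.of fun i j => ∑ l : Fin (J + 1), MvPolynomial.C (X ^ (l : ℕ)) * MvPolynomial.X (i, j, l) := ⟨_, rfl⟩
  obtain ⟨D, E, e, h⟩ := mv_bound G.det
  refine ⟨D, E, e, fun M H hH hd hc => ?_⟩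
  have h1 := h (fun q => (M q.1 q.2.1).coeff q.2.2) H hH (fun q => hc _ _ _)
  have h2 : MvPolynomial.eval (fun q : Fin n × Fin n × Fin (J + 1) =>
      Polynomial.C ((M q.1 q.2.1).coeff q.2.2)) G.det = M.det := by
    rw [RingHom.map_det]
    congr 1
    refine Matrix.ext fun i j => ?_
    rw [RingHom.mapMatrix_apply, Matrix.map_apply, hG, Matrix.of_apply, map_sum]
    conv_rhs => rw [(M i j).as_sum_range' (J + 1) (Nat.lt_succ_of_le (hd i j))]
    rw [Finset.sum_range]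
    refine Finset.sum_congr rfl fun l _ => ?_
    rw [map_mul, MvPolynomial.eval_C, MvPolynomial.eval_X, mul_comm, Polynomial.C_mul_X_pow_eq_monomial]
  rw [h2] at h1
  exact h1

/-- the value of a vector of polynomials -/
noncomputable def ev (z : ℝ) {k : ℕ} (t : Fin k → ℝ) (v : Fin (k + 1) → ℤ[X]) : ℝ :=
  aeval z (v 0) + ∑ j, aeval z (v j.succ) * t j

theorem ev_eq (z : ℝ) {k : ℕ} (t : Fin k → ℝ) (v : Fin (k + 1) → ℤ[X]) :
    ev z t v = ∑ j, aeval z (v j) * (Fin.cons 1 t : Fin (k + 1) → ℝ) j := by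
  rw [Fin.sum_univ_succ, Fin.cons_zero, mul_one]
  rfl

theorem ev_sum (z : ℝ) {k : ℕ} (t : Fin k → ℝ) {ι : Type*} (I : Finset ι) (q : ι → ℤ[X])
    (v : ι → Fin (k + 1) → ℤ[X]) : ev z t (∑ i ∈ I, q i • v i) = ∑ i ∈ I, aeval z (q i) * ev z t (v i) := by
  simp only [ev_eq, Finset.mul_sum]
  rw [Finset.sum_comm]
  refine Finset.sum_congr rfl fun j _ => ?_
  rw [Finset.sum_apply, map_sum, Finset.sum_mul]
  refine Finset.sum_congr rfl fun i _ => ?_
  rw [Pi.smul_apply, smul_eq_mul, map_mul]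
  ring

/-- vectors of polynomials of degree at most `J`, with coefficients at most `A` and a value smaller than `B` -/
def Small (J : ℕ) (z : ℝ) {k : ℕ} (t : Fin k → ℝ) (A B : ℝ) : Set (Fin (k + 1) → ℤ[X]) :=
  {v | (∀ j, (v j).natDegree ≤ J) ∧ (∀ j i, |((v j).coeff i : ℝ)| ≤ A) ∧ |ev z t v| < B}

/-- the exceptional module contains no nonzero vector whose last coordinates vanish -/
theorem sat_small {a b : ℝ} (ha : 0 < a) (hab : a < b) {z : ℝ} (hz : MT z) {k : ℕ} (J : ℕ) (t : Fin k → ℝ) :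
    ∀ᶠ N : ℕ in atTop, ∀ v ∈ Sat (Small J z t (Real.exp ((N : ℝ) ^ a)) (Real.exp (-(N : ℝ) ^ b))),
      (∀ j : Fin k, v j.succ = 0) → v = 0 := by
  classical
  obtain ⟨D, E, e, hdb⟩ := det_bound (k + 1) J
  obtain ⟨κ, c, hc, hm⟩ := hz D
  obtain ⟨m, hmm⟩ : ∃ m : ℕ, m = e * κ + e := ⟨_, rfl⟩
  obtain ⟨C, hC⟩ : ∃ C : ℝ, C = ((E : ℝ) + 1) ^ κ * ((k + 1) * ((D + 1) * (E + 1) * (1 + |z|) ^ D)) * 2 ^ m := ⟨_, rfl⟩
  have hC0 : 0 < C := by
    rw [hC]
    positivity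
  have e1 : ∀ᶠ N : ℕ in atTop, (m + 1 + |Real.log (C / c)|) * (N : ℝ) ^ a ≤ (N : ℝ) ^ b := evn (ev_lt hab _)
  filter_upwards [e1, eventually_ge_atTop 1] with N g1 g2
  intro v hv hvz
  by_contra hv0
  have hN1 : (1 : ℝ) ≤ N := by exact_mod_cast g2
  have hNa : 1 ≤ (N : ℝ) ^ a := Real.one_le_rpow hN1 ha.le
  obtain ⟨X0, hX⟩ : ∃ X : ℝ, X = Real.exp ((N : ℝ) ^ a) := ⟨_, rfl⟩
  obtain ⟨B, hB⟩ : ∃ B : ℝ, B = Real.exp (-(N : ℝ) ^ b) := ⟨_, rfl⟩
  have hX1 : 1 ≤ X0 := by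
    rw [hX]
    exact Real.one_le_exp (by positivity)
  rw [← hX, ← hB] at hv
  have hvs : v = Pi.single 0 (v 0) := by
    funext j
    refine Fin.cases ?_ (fun j => ?_) j
    · rw [Pi.single_eq_same]
    · rw [Pi.single_apply, if_neg (Fin.succ_ne_zero j), hvz j]
  have hA : v 0 ≠ 0 := by
    intro h
    apply hv0
    rw [hvs, h, Pi.single_zero]
  rw [hvs] at hv
  obtain ⟨I, M, hM, hM1, hdet, hrel⟩ := exists_relation _ (v 0) hA hv
  obtain ⟨H, hH⟩ : ∃ H : ℕ, H = ⌈X0⌉₊ := ⟨_, rfl⟩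
  have hXH : X0 ≤ H := by
    rw [hH]
    exact Nat.le_ceil _
  have hH2 : (H : ℝ) ≤ 2 * X0 := by
    rw [hH]
    have h1 := Nat.ceil_lt_add_one (show 0 ≤ X0 by linarith)
    linarith
  have hH1R : (1 : ℝ) ≤ H := by linarith
  have hH1 : 1 ≤ H := by exact_mod_cast hH1R
  -- the rows
  have hunit : ∀ i : Fin (k + 1), ∀ j, ((Pi.single i 1 : Fin (k + 1) → ℤ[X]) j).natDegree ≤ J ∧
      ∀ l, |((Pi.single i 1 : Fin (k + 1) → ℤ[X]) j).coeff l| ≤ (H : ℤ) := by
    intro i j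
    rw [Pi.single_apply]
    split_ifs
    · refine ⟨by simp, fun l => ?_⟩
      rw [Polynomial.coeff_one]
      split_ifs
      · rw [abs_one]
        exact_mod_cast hH1
      · rw [abs_zero]
        positivity
    · exact ⟨by simp, fun l => by simp⟩
  have hrow : ∀ i j, (M i j).natDegree ≤ J ∧ ∀ l, |(M i j).coeff l| ≤ (H : ℤ) := by
    intro i j
    by_cases hi : i ∈ I
    · obtain ⟨h1, h2, _⟩ := hM i hi
      refine ⟨h1 j, fun l => ?_⟩
      have h3 := (h2 j l).trans hXH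
      exact_mod_cast h3
    · rw [hM1 i hi]
      exact hunit i j
  have hrow' : ∀ i0 i j, ((M.updateRow i0 (Pi.single 0 1)) i j).natDegree ≤ J ∧
      ∀ l, |((M.updateRow i0 (Pi.single 0 1)) i j).coeff l| ≤ (H : ℤ) := by
    intro i0 i j
    by_cases hi : i = i0
    · subst hi
      rw [Matrix.updateRow_self]
      exact hunit 0 j
    · rw [Matrix.updateRow_ne hi]
      exact hrow i j
  obtain ⟨d1, d2⟩ := hdb M H hH1 (fun i j => (hrow i j).1) (fun i j l => (hrow i j).2 l)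
  have d3 : ∀ i0, |aeval z (M.updateRow i0 (Pi.single 0 1)).det| ≤ (D + 1) * (E * (H : ℝ) ^ e) * (1 + |z|) ^ D := by
    intro i0
    obtain ⟨q1, q2⟩ := hdb (M.updateRow i0 (Pi.single 0 1)) H hH1 (fun i j => (hrow' i0 i j).1)
      (fun i j l => (hrow' i0 i j).2 l)
    refine aeval_le z _ D _ q1 fun l => ?_
    have := q2 l
    exact_mod_cast this
  -- the value of the determinant
  have k1 : ev z t (Pi.single 0 M.det) = aeval z M.det := by
    rw [ev, Pi.single_eq_same]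
    have h1 : ∀ j : Fin k, aeval z ((Pi.single 0 M.det : Fin (k + 1) → ℤ[X]) j.succ) * t j = 0 := by
      intro j
      rw [Pi.single_apply, if_neg (Fin.succ_ne_zero j), map_zero, zero_mul]
    rw [Finset.sum_eq_zero fun j _ => h1 j, add_zero]
  have k2 : |aeval z M.det| ≤ (k + 1) * ((D + 1) * (E * (H : ℝ) ^ e) * (1 + |z|) ^ D * B) := by
    rw [← k1, hrel, ev_sum]
    refine (Finset.abs_sum_le_sum_abs _ _).trans ?_
    refine (Finset.sum_le_sum (g := fun _ => (D + 1) * (E * (H : ℝ) ^ e) * (1 + |z|) ^ D * B) fun i hi => ?_).trans ?_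
    · rw [abs_mul]
      exact mul_le_mul (d3 i) (hM i hi).2.2.le (abs_nonneg _) (by positivity)
    · rw [Finset.sum_const, nsmul_eq_mul]
      have h1 : (I.card : ℝ) ≤ k + 1 := by
        have := (Finset.card_le_univ I)
        rw [Fintype.card_fin] at this
        exact_mod_cast this
      have hB0 : 0 ≤ B := by
        rw [hB]
        positivity
      gcongr
  have k3 := hm M.det hdet d1 (((E : ℝ) + 1) * (H : ℝ) ^ e) (by
    have h1 : (1 : ℝ) ≤ (H : ℝ) ^ e := one_le_pow₀ hH1R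
    have h2 : (0 : ℝ) ≤ E := by positivity
    nlinarith) (fun l => by
    have h1 : |((M.det.coeff l : ℤ) : ℝ)| ≤ E * (H : ℝ) ^ e := by
      have := d2 l
      exact_mod_cast this
    have h2 : (0 : ℝ) ≤ (H : ℝ) ^ e := by positivity
    nlinarith)
  have hB0 : 0 < B := by
    rw [hB]
    positivity
  have k4 : c ≤ C * (X0 ^ m * B) := by
    calc c ≤ (((E : ℝ) + 1) * (H : ℝ) ^ e) ^ κ * ((k + 1) * ((D + 1) * (E * (H : ℝ) ^ e) * (1 + |z|) ^ D * B)) :=
          k3.trans (by gcongr)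
      _ ≤ (((E : ℝ) + 1) * (H : ℝ) ^ e) ^ κ * ((k + 1) * ((D + 1) * ((E + 1) * (H : ℝ) ^ e) * (1 + |z|) ^ D * B)) := by
          gcongr
          linarith
      _ = ((E : ℝ) + 1) ^ κ * ((k + 1) * ((D + 1) * (E + 1) * (1 + |z|) ^ D)) * ((H : ℝ) ^ m * B) := by
          rw [hmm, mul_pow, ← pow_mul, pow_add]
          ring
      _ ≤ ((E : ℝ) + 1) ^ κ * ((k + 1) * ((D + 1) * (E + 1) * (1 + |z|) ^ D)) * ((2 * X0) ^ m * B) := by
          gcongr
      _ = _ := by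
          rw [hC, mul_pow]
          ring
  have k5 : X0 ^ m * B = Real.exp (m * (N : ℝ) ^ a - (N : ℝ) ^ b) := by
    rw [hX, hB, ← Real.exp_nat_mul, ← Real.exp_add, sub_eq_add_neg]
  rw [k5] at k4
  have k6 : Real.exp (-(Real.log (C / c))) ≤ Real.exp (m * (N : ℝ) ^ a - (N : ℝ) ^ b) := by
    rw [Real.exp_neg, Real.exp_log (by positivity), inv_div, div_le_iff₀ hC0, mul_comm]
    exact k4
  rw [Real.exp_le_exp] at k6
  have k7 := le_abs_self (Real.log (C / c))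
  have k8 := abs_nonneg (Real.log (C / c))
  nlinarith

end Run7.h835.RR
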