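import Pool.Agent.Run7.h835.RR.B

/-!
# Random products: forms in several arbitrary numbers over a field with a transcendence measure
-/

set_option autoImplicit false

namespace Run7.h835.RR

open Finset Filter Run7.h683.AB Run7.h683.MR MeasureTheory ProbabilityTheory Topology Polynomial Matrix
open Pool.Agent.Y957.VK (dz mn)

/-- the numbers `z ^ i` and `z ^ i t_j`, `i ≤ J` -/
noncomputable def ys (J : ℕ) (z : ℝ) {k : ℕ} (t : Fin k → ℝ) : Fin ((k + 1) * (J + 1)) → ℝ := fun q =>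
  z ^ ((finProdFinEquiv.symm q).2 : ℕ) * (Fin.cons 1 t : Fin (k + 1) → ℝ) (finProdFinEquiv.symm q).1

/-- the coefficients of a vector of polynomials -/
def cf (J : ℕ) {k : ℕ} (v : Fin (k + 1) → ℤ[X]) : Fin ((k + 1) * (J + 1)) → ℤ := fun q =>
  (v (finProdFinEquiv.symm q).1).coeff ((finProdFinEquiv.symm q).2 : ℕ)

/-- the vector of polynomials with given coefficients -/
noncomputable def pv (J : ℕ) {k : ℕ} (h : Fin ((k + 1) * (J + 1)) → ℤ) : Fin (k + 1) → ℤ[X] := fun j =>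
  ∑ i : Fin (J + 1), monomial (i : ℕ) (h (finProdFinEquiv (j, i)))

theorem pv_coeff {J k : ℕ} (h : Fin ((k + 1) * (J + 1)) → ℤ) (j : Fin (k + 1)) (i : Fin (J + 1)) :
    (pv J h j).coeff (i : ℕ) = h (finProdFinEquiv (j, i)) := by
  rw [pv, finset_sum_coeff, Finset.sum_eq_single i]
  · rw [coeff_monomial, if_pos rfl]
  · intro i' _ hi'
    rw [coeff_monomial, if_neg]
    intro h1
    exact hi' (Fin.ext h1)
  · intro h1
    exact absurd (Finset.mem_univ i) h1

theorem pv_natDegree {J k : ℕ} (h : Fin ((k + 1) * (J + 1)) → ℤ) (j : Fin (k + 1)) : (pv J h j).natDegree ≤ J := by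
  rw [pv]
  refine natDegree_sum_le_of_forall_le _ _ fun i _ => (natDegree_monomial_le _).trans ?_
  exact Nat.lt_succ_iff.1 i.2

theorem pv_coeff' {J k : ℕ} (h : Fin ((k + 1) * (J + 1)) → ℤ) (j : Fin (k + 1)) (l : ℕ) :
    (∃ i : Fin (J + 1), l = i ∧ (pv J h j).coeff l = h (finProdFinEquiv (j, i))) ∨ (J < l ∧ (pv J h j).coeff l = 0) := by
  by_cases hl : l ≤ J
  · left
    exact ⟨⟨l, Nat.lt_succ_of_le hl⟩, rfl, pv_coeff h j ⟨l, Nat.lt_succ_of_le hl⟩⟩
  · right
    exact ⟨by omega, coeff_eq_zero_of_natDegree_lt (lt_of_le_of_lt (pv_natDegree h j) (by omega))⟩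

theorem ev_cf {J : ℕ} {z : ℝ} {k : ℕ} (t : Fin k → ℝ) (v : Fin (k + 1) → ℤ[X]) (hv : ∀ j, (v j).natDegree ≤ J) :
    ∑ q, (cf J v q : ℝ) * ys J z t q = ev z t v := by
  rw [ev_eq]
  have h1 : ∑ q, (cf J v q : ℝ) * ys J z t q = ∑ p : Fin (k + 1) × Fin (J + 1),
      ((v p.1).coeff (p.2 : ℕ) : ℝ) * (z ^ (p.2 : ℕ) * (Fin.cons 1 t : Fin (k + 1) → ℝ) p.1) := by
    rw [← Equiv.sum_comp finProdFinEquiv.symm]
    rfl
  rw [h1, Fintype.sum_prod_type]
  refine Finset.sum_congr rfl fun j _ => ?_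
  rw [aeval_eq_sum_range' (Nat.lt_succ_of_le (hv j)), Finset.sum_range, Finset.sum_mul]
  refine Finset.sum_congr rfl fun i _ => ?_
  rw [zsmul_eq_mul]
  ring

theorem ev_pv {J : ℕ} {z : ℝ} {k : ℕ} (t : Fin k → ℝ) (h : Fin ((k + 1) * (J + 1)) → ℤ) :
    ev z t (pv J h) = ∑ q, (h q : ℝ) * ys J z t q := by
  rw [← ev_cf t (pv J h) (pv_natDegree h)]
  refine Finset.sum_congr rfl fun q _ => ?_
  have h1 : cf J (pv J h) q = h q := by
    rw [cf, pv_coeff]
    exact congrArg h (finProdFinEquiv.apply_symm_apply q)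
  rw [h1]

/-- a vector of the exceptional space is an element of the exceptional module up to a constant -/
theorem exc_rel {a a' b : ℝ} (ha : 0 < a) (haa : a < a') {z : ℝ} {k : ℕ} (J : ℕ) (t : Fin k → ℝ) :
    ∀ᶠ N : ℕ in atTop, ∀ q ∈ Exc a b (ys J z t) N, ∃ D : ℕ, 1 ≤ D ∧ ∃ κ : ℤ,
      ∃ w ∈ Submodule.span ℤ (Small J z t (Real.exp ((N : ℝ) ^ a')) (Real.exp (-(N : ℝ) ^ b))),
        ∀ (j : Fin (k + 1)) (i : Fin (J + 1)), (D : ℚ) * q (finProdFinEquiv (j, i)) =
          ((w j).coeff (i : ℕ) : ℚ) + if j = 0 ∧ (i : ℕ) = 0 then (κ : ℚ) else 0 := by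
  classical
  obtain ⟨Y, hY⟩ : ∃ Y : ℝ, Y = ∑ q, |ys J z t q| := ⟨_, rfl⟩
  have hY0 : 0 ≤ Y := by
    rw [hY]
    positivity
  have e1 : ∀ᶠ N : ℕ in atTop, (1 + |Real.log (Y + 2)|) * (N : ℝ) ^ a ≤ (N : ℝ) ^ a' := evn (ev_lt haa _)
  filter_upwards [e1, eventually_ge_atTop 1] with N g1 g2
  intro q hq
  have hN1 : (1 : ℝ) ≤ N := by exact_mod_cast g2
  have hNa : 1 ≤ (N : ℝ) ^ a := Real.one_le_rpow hN1 ha.le
  have hX1 : 1 ≤ Real.exp ((N : ℝ) ^ a) := Real.one_le_exp (by positivity)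
  have hX2 : (Y + 2) * Real.exp ((N : ℝ) ^ a) ≤ Real.exp ((N : ℝ) ^ a') := by
    have h1 : 0 < Y + 2 := by linarith
    calc (Y + 2) * Real.exp ((N : ℝ) ^ a) = Real.exp (Real.log (Y + 2) + (N : ℝ) ^ a) := by
          rw [Real.exp_add, Real.exp_log h1]
      _ ≤ _ := by
          refine Real.exp_le_exp.2 ?_
          have := le_abs_self (Real.log (Y + 2))
          have := abs_nonneg (Real.log (Y + 2))
          nlinarith
  refine Submodule.span_induction (p := fun q _ => ∃ D : ℕ, 1 ≤ D ∧ ∃ κ : ℤ,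
      ∃ w ∈ Submodule.span ℤ (Small J z t (Real.exp ((N : ℝ) ^ a')) (Real.exp (-(N : ℝ) ^ b))),
        ∀ (j : Fin (k + 1)) (i : Fin (J + 1)), (D : ℚ) * q (finProdFinEquiv (j, i)) =
          ((w j).coeff (i : ℕ) : ℚ) + if j = 0 ∧ (i : ℕ) = 0 then (κ : ℚ) else 0) ?_ ?_ ?_ ?_ hq
  · rintro x ⟨h, hh, hd, rfl⟩
    obtain ⟨κ, hκ⟩ : ∃ κ : ℤ, κ = round (∑ i, (h i : ℝ) * ys J z t i) := ⟨_, rfl⟩
    have hdκ : dz (∑ i, (h i : ℝ) * ys J z t i) = |∑ i, (h i : ℝ) * ys J z t i - κ| := by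
      rw [hκ]
      rfl
    have hκb : |(κ : ℝ)| ≤ (Y + 1) * Real.exp ((N : ℝ) ^ a) := by
      have h1 : |∑ i, (h i : ℝ) * ys J z t i| ≤ Real.exp ((N : ℝ) ^ a) * Y := by
        refine (Finset.abs_sum_le_sum_abs _ _).trans ?_
        rw [hY, Finset.mul_sum]
        refine Finset.sum_le_sum fun i _ => ?_
        rw [abs_mul]
        have := hh i
        gcongr
      have h2 := abs_sub_round (∑ i, (h i : ℝ) * ys J z t i)
      rw [← hκ] at h2
      have h3 := abs_sub_abs_le_abs_sub (κ : ℝ) (∑ i, (h i : ℝ) * ys J z t i)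
      rw [abs_sub_comm] at h3
      nlinarith
    refine ⟨1, le_rfl, κ, pv J h - (Pi.single 0 (C κ) : Fin (k + 1) → ℤ[X]), Submodule.subset_span ⟨?_, ?_, ?_⟩, ?_⟩
    · intro j
      rw [Pi.sub_apply]
      refine (natDegree_sub_le _ _).trans (max_le (pv_natDegree h j) ?_)
      rw [Pi.single_apply]
      split_ifs
      · rw [natDegree_C]
        exact Nat.zero_le _
      · rw [natDegree_zero]
        exact Nat.zero_le _
    · intro j l
      rw [Pi.sub_apply, coeff_sub]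
      push_cast
      refine (abs_sub _ _).trans ?_
      have h1 : |((pv J h j).coeff l : ℝ)| ≤ Real.exp ((N : ℝ) ^ a) := by
        rcases pv_coeff' h j l with ⟨i, _, h2⟩ | ⟨_, h2⟩
        · rw [h2]
          exact hh _
        · rw [h2, Int.cast_zero, abs_zero]
          positivity
      have h2 : |(((Pi.single 0 (C κ) : Fin (k + 1) → ℤ[X]) j).coeff l : ℝ)| ≤ (Y + 1) * Real.exp ((N : ℝ) ^ a) := by
        rw [Pi.single_apply]
        split_ifs
        · rw [coeff_C]
          split_ifs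
          · exact hκb
          · rw [Int.cast_zero, abs_zero]
            positivity
        · rw [coeff_zero, Int.cast_zero, abs_zero]
          positivity
      linarith
    · have h1 : ev z t (pv J h - (Pi.single 0 (C κ) : Fin (k + 1) → ℤ[X])) = ∑ q, (h q : ℝ) * ys J z t q - κ := by
        rw [← ev_pv, ev_eq, ev_eq]
        have h2 : ∀ j : Fin (k + 1), aeval z ((pv J h - (Pi.single 0 (C κ) : Fin (k + 1) → ℤ[X])) j) * (Fin.cons 1 t : Fin (k + 1) → ℝ) j =
            aeval z (pv J h j) * (Fin.cons 1 t : Fin (k + 1) → ℝ) j - if j = 0 then (κ : ℝ) else 0 := by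
          intro j
          rw [Pi.sub_apply, map_sub, sub_mul, Pi.single_apply]
          split_ifs with h3
          · rw [h3, Fin.cons_zero, mul_one, mul_one, aeval_C]
            simp
          · rw [map_zero, zero_mul]
        rw [Finset.sum_congr rfl fun j _ => h2 j, Finset.sum_sub_distrib, Finset.sum_ite_eq' Finset.univ 0,
          if_pos (Finset.mem_univ _)]
      rw [h1, ← hdκ]
      exact hd
    · intro j i
      rw [Nat.cast_one, one_mul, Pi.sub_apply, coeff_sub, pv_coeff]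
      push_cast
      rw [Pi.single_apply]
      by_cases h1 : j = 0
      · by_cases h2 : (i : ℕ) = 0
        · rw [if_pos h1, if_pos ⟨h1, h2⟩, coeff_C, if_pos h2]
          ring
        · rw [if_pos h1, if_neg (fun h3 => h2 h3.2), coeff_C, if_neg h2]
          simp
      · rw [if_neg h1, if_neg (fun h3 => h1 h3.1)]
        simp
  · refine ⟨1, le_rfl, 0, 0, Submodule.zero_mem _, fun j i => ?_⟩
    simp
  · rintro x y _ _ ⟨D1, hD1, κ1, w1, hw1, h1⟩ ⟨D2, hD2, κ2, w2, hw2, h2⟩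
    refine ⟨D1 * D2, Nat.one_le_iff_ne_zero.2 (Nat.mul_ne_zero (by omega) (by omega)), D2 * κ1 + D1 * κ2,
      (D2 : ℤ) • w1 + (D1 : ℤ) • w2,
      Submodule.add_mem _ (Submodule.smul_mem _ _ hw1) (Submodule.smul_mem _ _ hw2), fun j i => ?_⟩
    have k1 := h1 j i
    have k2 := h2 j i
    rw [Pi.add_apply, Pi.add_apply, Pi.smul_apply, Pi.smul_apply, coeff_add, coeff_smul, coeff_smul]
    push_cast
    rw [smul_eq_mul, smul_eq_mul]
    push_cast
    by_cases h3 : j = 0 ∧ (i : ℕ) = 0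
    · rw [if_pos h3] at k1 k2 ⊢
      linear_combination (D2 : ℚ) * k1 + (D1 : ℚ) * k2
    · rw [if_neg h3] at k1 k2 ⊢
      linear_combination (D2 : ℚ) * k1 + (D1 : ℚ) * k2
  · rintro r x _ ⟨D, hD, κ, w, hw, h1⟩
    refine ⟨D * r.den, Nat.one_le_iff_ne_zero.2 (Nat.mul_ne_zero (by omega) r.den_nz), r.num * κ, r.num • w,
      Submodule.smul_mem _ _ hw, fun j i => ?_⟩
    have k1 := h1 j i
    have k2 : (r.den : ℚ) * r = r.num := by
      rw [mul_comm]
      exact Rat.mul_den_eq_num r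
    rw [Pi.smul_apply, Pi.smul_apply, coeff_smul, smul_eq_mul, smul_eq_mul]
    push_cast
    by_cases h3 : j = 0 ∧ (i : ℕ) = 0
    · rw [if_pos h3] at k1 ⊢
      linear_combination (r.num : ℚ) * k1 + (D : ℚ) * x (finProdFinEquiv (j, i)) * k2
    · rw [if_neg h3] at k1 ⊢
      linear_combination (r.num : ℚ) * k1 + (D : ℚ) * x (finProdFinEquiv (j, i)) * k2

/-- `ℤ`-combinations are `ℤ[X]`-combinations -/
theorem span_int_le {k : ℕ} (S : Set (Fin (k + 1) → ℤ[X])) {w : Fin (k + 1) → ℤ[X]} (hw : w ∈ Submodule.span ℤ S) :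
    w ∈ Submodule.span ℤ[X] S := by
  refine Submodule.span_induction (p := fun w _ => w ∈ Submodule.span ℤ[X] S) ?_ ?_ ?_ ?_ hw
  · intro x hx
    exact Submodule.subset_span hx
  · exact Submodule.zero_mem _
  · intro x y _ _ hx hy
    exact Submodule.add_mem _ hx hy
  · intro r x _ hx
    exact zsmul_mem hx r

theorem span_natDegree {J : ℕ} {z : ℝ} {k : ℕ} {t : Fin k → ℝ} {A B : ℝ} {w : Fin (k + 1) → ℤ[X]}
    (hw : w ∈ Submodule.span ℤ (Small J z t A B)) (j : Fin (k + 1)) : (w j).natDegree ≤ J := by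
  refine Submodule.span_induction (p := fun w _ => (w j).natDegree ≤ J) ?_ ?_ ?_ ?_ hw
  · intro x hx
    exact hx.1 j
  · simp
  · intro x y _ _ hx hy
    rw [Pi.add_apply]
    exact (natDegree_add_le _ _).trans (max_le hx hy)
  · intro r x _ hx
    rw [Pi.smul_apply]
    exact (natDegree_smul_le _ _).trans hx

/-- the exceptional lattice: the integral vectors of polynomials with an integral multiple in the span of `Small` -/
def El (J : ℕ) (z : ℝ) {k : ℕ} (t : Fin k → ℝ) (a b : ℝ) (N : ℕ) : Set (Fin (k + 1) → ℤ[X]) :=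
  {v | ∃ D : ℤ, D ≠ 0 ∧ D • v ∈ Submodule.span ℤ (Small J z t (Real.exp ((N : ℝ) ^ a)) (Real.exp (-(N : ℝ) ^ b)))}

/-- the `ℤ[X]`-span of the exceptional lattice is in the saturation -/
theorem span_el {J : ℕ} {z : ℝ} {k : ℕ} {t : Fin k → ℝ} {a b : ℝ} {N : ℕ} {v : Fin (k + 1) → ℤ[X]}
    (hv : v ∈ Submodule.span ℤ[X] (El J z t a b N)) :
    v ∈ Sat (Small J z t (Real.exp ((N : ℝ) ^ a)) (Real.exp (-(N : ℝ) ^ b))) := by
  refine Submodule.span_induction (p := fun v _ => v ∈ Sat (Small J z t (Real.exp ((N : ℝ) ^ a))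
    (Real.exp (-(N : ℝ) ^ b)))) ?_ ?_ ?_ ?_ hv
  · rintro x ⟨D, hD, hx⟩
    refine ⟨C D, fun h => hD (C_eq_zero.1 h), ?_⟩
    have h1 : C D • x = D • x := by
      funext j
      rw [Pi.smul_apply, Pi.smul_apply, smul_eq_mul, zsmul_eq_mul, eq_intCast C D]
    rw [h1]
    exact span_int_le _ hx
  · exact ⟨1, one_ne_zero, by
      rw [smul_zero]
      exact Submodule.zero_mem _⟩
  · rintro x y _ _ ⟨P, hP, hx⟩ ⟨Q, hQ, hy⟩
    refine ⟨P * Q, mul_ne_zero hP hQ, ?_⟩
    have h1 : (P * Q) • (x + y) = Q • (P • x) + P • (Q • y) := by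
      rw [smul_add, smul_smul, smul_smul, mul_comm Q P]
    rw [h1]
    exact Submodule.add_mem _ (Submodule.smul_mem _ _ hx) (Submodule.smul_mem _ _ hy)
  · rintro r x _ ⟨P, hP, hx⟩
    refine ⟨P, hP, ?_⟩
    have h1 : P • (r • x) = r • (P • x) := smul_comm _ _ _
    rw [h1]
    exact Submodule.smul_mem _ _ hx

/-- the forms `f j` are independent modulo `E` and the constants -/
def IndepMod {m k : ℕ} (E : Set (Fin (k + 1) → ℤ[X])) (f : Fin m → Fin (k + 1) → ℤ[X]) : Prop :=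
  ∀ (c : Fin m → ℤ) (κ : ℤ), c ≠ 0 → (∑ j, C (c j) • f j) - (Pi.single 0 (C κ) : Fin (k + 1) → ℤ[X]) ∉ E

/-- the structure theorem -/
theorem main.{u} {S : ℕ → Finset ℕ} {M : ℕ → ℕ} {θ Θ : ℝ} (G : Growth S M θ Θ) :
    ∃ a b : ℝ, 0 < a ∧ a < b ∧ b < 1 ∧
      (∀ z : ℝ, MT z → ∀ (k : ℕ) (t : Fin k → ℝ) (J : ℕ), ∀ᶠ N : ℕ in atTop,
        ∀ v ∈ Submodule.span ℤ[X] (El J z t a b N), (∀ j : Fin k, v j.succ = 0) → v = 0) ∧
      ∀ (Ω : Type u) [MeasurableSpace Ω] (μ : Measure Ω) [IsProbabilityMeasure μ] (p : ℕ → Ω → ℕ), Uniform μ S p →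
        ∀ (z : ℝ) (k : ℕ) (t : Fin k → ℝ), ∀ᵐ ω ∂μ, ∀ (J m L H : ℕ) (ε : ℝ), 0 < ε → ∀ᶠ N : ℕ in atTop,
          ∀ f : Fin m → Fin (k + 1) → ℤ[X], (∀ j i, (f j i).natDegree ≤ J) → (∀ j i l, |(f j i).coeff l| ≤ (H : ℤ)) →
            IndepMod (El J z t a b N) f → Words (fun k => p k ω) (fun j => ev z t (f j)) L N ε := by
  classical
  obtain ⟨a, b, ha, hab, hb, h⟩ := structure_ae.{u} G
  obtain ⟨a', ha'⟩ : ∃ a' : ℝ, a' = (a + b) / 2 := ⟨_, rfl⟩
  have haa : a < a' := by linarith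
  have hab' : a' < b := by linarith
  refine ⟨a', b, by linarith, hab', hb, fun z hz k t J => ?_, ?_⟩
  · filter_upwards [sat_small (by linarith) hab' hz J t] with N g v hv
    exact g v (span_el hv)
  intro Ω _ μ _ p hp z k t
  rw [ae_all_iff]
  intro J
  filter_upwards [h Ω μ p hp _ (ys J z t)] with ω hω
  intro m L H ε hε
  filter_upwards [hω m L H ε hε, exc_rel (z := z) (b := b) ha haa J t] with N g1 g2
  intro f hfd hfH hf
  have hval : (fun j => ∑ i, ((fun j => cf J (f j)) j i : ℝ) * ys J z t i) = fun j => ev z t (f j) := by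
    funext j
    exact ev_cf t (f j) (hfd j)
  have h1 := g1 (fun j => cf J (f j)) (fun j i => hfH j _ _) (fun c hc hmem => ?_)
  · rw [← hval]
    exact h1
  · obtain ⟨D, hD, κ, w, hw, hrel⟩ := g2 _ hmem
    refine hf (fun j => D * c j) κ (fun h0 => hc ?_) ?_
    · funext j
      have h2 := congrFun h0 j
      simp only [Pi.zero_apply, mul_eq_zero] at h2 ⊢
      rcases h2 with h2 | h2
      · exfalso
        have : D = 0 := by exact_mod_cast h2
        omega
      · exact h2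
    · have h2 : (∑ j, C ((D : ℤ) * c j) • f j) - (Pi.single 0 (C κ) : Fin (k + 1) → ℤ[X]) = w := by
        funext i
        refine Polynomial.ext fun l => ?_
        rw [Pi.sub_apply, coeff_sub, Finset.sum_apply, finset_sum_coeff]
        by_cases hl : l ≤ J
        · have h3 := hrel i ⟨l, Nat.lt_succ_of_le hl⟩
          have h4 : ∀ j, ((C ((D : ℤ) * c j) • f j) i).coeff l = D * (c j * (f j i).coeff l) := by
            intro j
            rw [Pi.smul_apply, smul_eq_mul, coeff_C_mul, mul_assoc]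
          have h5 : (((Pi.single 0 (C κ) : Fin (k + 1) → ℤ[X]) i).coeff l : ℚ) =
              if i = 0 ∧ l = 0 then (κ : ℚ) else 0 := by
            rw [Pi.single_apply]
            by_cases h6 : i = 0
            · by_cases h7 : l = 0
              · rw [if_pos h6, if_pos ⟨h6, h7⟩, coeff_C, if_pos h7]
              · rw [if_pos h6, if_neg (fun h8 => h7 h8.2), coeff_C, if_neg h7, Int.cast_zero]
            · rw [if_neg h6, if_neg (fun h8 => h6 h8.1), coeff_zero, Int.cast_zero]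
          have h7 : ((∑ j, ((C ((D : ℤ) * c j) • f j) i).coeff l - ((Pi.single 0 (C κ) : Fin (k + 1) → ℤ[X]) i).coeff l : ℤ) : ℚ) =
              ((w i).coeff l : ℚ) := by
            push_cast
            rw [h5]
            simp only [h4]
            have h8 : ∀ j, cf J (f j) (finProdFinEquiv (i, ⟨l, Nat.lt_succ_of_le hl⟩)) = (f j i).coeff l := by
              intro j
              rw [cf, Equiv.symm_apply_apply]
            simp only [h8] at h3
            push_cast at h3 ⊢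
            rw [← Finset.mul_sum]
            linarith
          exact_mod_cast h7
        · have hl' : J < l := by omega
          rw [coeff_eq_zero_of_natDegree_lt (lt_of_le_of_lt (span_natDegree hw i) hl')]
          have h4 : ∀ j, ((C ((D : ℤ) * c j) • f j) i).coeff l = 0 := by
            intro j
            rw [Pi.smul_apply, smul_eq_mul, coeff_C_mul, coeff_eq_zero_of_natDegree_lt (lt_of_le_of_lt (hfd j i) hl'), mul_zero]
          have h5 : ((Pi.single 0 (C κ) : Fin (k + 1) → ℤ[X]) i).coeff l = 0 := by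
            rw [Pi.single_apply]
            split_ifs
            · rw [coeff_C, if_neg (by omega)]
            · exact coeff_zero _
          rw [h5, Finset.sum_eq_zero fun j _ => h4 j, sub_zero]
      rw [h2]
      exact ⟨1, one_ne_zero, by
        rw [one_smul]
        exact hw⟩

end Run7.h835.RR
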