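import Pool.Agent.Run7.h835.RR.C
import Pool.Agent.Run7.h683.MR.U

/-!
# The exceptional lattice: subfamilies
-/

set_option autoImplicit false

namespace Run7.h835.RR

open Finset Filter Run7.h683.AB Run7.h683.MR MeasureTheory ProbabilityTheory Topology Polynomial Matrix
open Pool.Agent.Y957.VK (dz mn)

/-- the vectors of the exceptional space with support in a family without two almost integral forms are proportional -/
theorem exc_inter2 {a b : ℝ} (ha : 0 < a) (hab : a < b) {s r : ℕ} (y : Fin s → ℝ) (e : Fin r → Fin s)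
    (he : Function.Injective e) (hm : Apart2 (fun j => y (e j))) :
    ∀ᶠ N : ℕ in atTop, ∀ q ∈ Exc a b y N, ∀ q' ∈ Exc a b y N, (∀ i, i ∉ Set.range e → q i = 0) →
      (∀ i, i ∉ Set.range e → q' i = 0) → ∃ x x' : ℚ, (x ≠ 0 ∨ x' ≠ 0) ∧ x • q = x' • q' := by
  classical
  obtain ⟨κ, c, hc, h⟩ := hm
  obtain ⟨C, hC⟩ : ∃ C : ℝ, C = (s + 1) * (s + 1) ^ s := ⟨_, rfl⟩
  have hC1 : 1 ≤ C := by
    rw [hC]
    have h1 : (1 : ℝ) ≤ (s + 1) ^ s := one_le_pow₀ (by linarith [(Nat.cast_nonneg s : (0 : ℝ) ≤ s)])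
    have h2 : (1 : ℝ) ≤ s + 1 := by linarith [(Nat.cast_nonneg s : (0 : ℝ) ≤ s)]
    nlinarith
  obtain ⟨E, hE⟩ : ∃ E : ℝ, E = |Real.log (c / (2 * C) ^ κ / (2 * C))| + 1 + κ * (s + 1) + s := ⟨_, rfl⟩
  have e1 : ∀ᶠ N : ℕ in atTop, E * (N : ℝ) ^ a ≤ (N : ℝ) ^ b := evn (ev_lt hab _)
  filter_upwards [e1, eventually_ge_atTop 2] with N g1 g2
  intro q hq q' hq' hqe hqe'
  by_contra hcon
  push Not at hcon
  have hq0 : q ≠ 0 := by
    rintro rfl
    exact hcon 1 0 (Or.inl one_ne_zero) (by simp)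
  obtain ⟨g, hg0, hgz, hgX, hgd⟩ := exc_small hq hq0
  obtain ⟨i0, hi0⟩ : ∃ i0, g i0 ≠ 0 := Function.ne_iff.1 hg0
  have hqi0 : q i0 ≠ 0 := fun h1 => hi0 (hgz i0 h1)
  obtain ⟨q'', hq''⟩ : ∃ q'' : Fin s → ℚ, q'' = q i0 • q' - q' i0 • q := ⟨_, rfl⟩
  have hq''m : q'' ∈ Exc a b y N := by
    rw [hq'']
    exact Submodule.sub_mem _ (Submodule.smul_mem _ _ hq') (Submodule.smul_mem _ _ hq)
  have hq''0 : q'' ≠ 0 := by
    intro h1
    rw [hq'', sub_eq_zero] at h1
    exact hcon (q' i0) (q i0) (Or.inr hqi0) h1.symm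
  have hq''i : q'' i0 = 0 := by
    rw [hq'', Pi.sub_apply, Pi.smul_apply, Pi.smul_apply, smul_eq_mul, smul_eq_mul]
    ring
  have hq''e : ∀ i, i ∉ Set.range e → q'' i = 0 := by
    intro i hi
    rw [hq'', Pi.sub_apply, Pi.smul_apply, Pi.smul_apply, hqe i hi, hqe' i hi]
    simp
  obtain ⟨g', hg0', hgz', hgX', hgd'⟩ := exc_small hq''m hq''0
  have hgi0' : g' i0 = 0 := hgz' i0 hq''i
  obtain ⟨X, hX⟩ : ∃ X : ℝ, X = Real.exp ((N : ℝ) ^ a) := ⟨_, rfl⟩
  have hX1 : 1 ≤ X := by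
    rw [hX]
    exact Real.one_le_exp (by positivity)
  have hN2 : (1 : ℝ) < N := by exact_mod_cast g2
  have hNa : 1 ≤ (N : ℝ) ^ a := Real.one_le_rpow hN2.le ha.le
  rw [← hX] at hgX hgd hgX' hgd'
  have hbd : ∀ g : Fin s → ℤ, (∀ i, |(g i : ℝ)| ≤ s * ((s * X) ^ s * X)) → ∀ i, |(g i : ℝ)| ≤ C * X ^ (s + 1) := by
    intro g hgX i
    refine (hgX i).trans ?_
    rw [hC, mul_pow]
    calc (s : ℝ) * ((s : ℝ) ^ s * X ^ s * X) ≤ (s + 1) * ((s + 1) ^ s * X ^ s * X) := by gcongr <;> linarith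
      _ = _ := by ring
  have hgC := hbd g hgX
  have hgC' := hbd g' hgX'
  obtain ⟨H, hH⟩ : ∃ H : ℕ, H = ⌈C * X ^ (s + 1)⌉₊ := ⟨_, rfl⟩
  have hH1 : (H : ℝ) ≤ 2 * C * X ^ (s + 1) := by
    rw [hH]
    have h1 := Nat.ceil_lt_add_one (show 0 ≤ C * X ^ (s + 1) by positivity)
    have h2 : (1 : ℝ) ≤ X ^ (s + 1) := one_le_pow₀ hX1
    nlinarith
  have hHnat : 0 < H := by
    rw [hH]
    exact Nat.ceil_pos.2 (by positivity)
  have hHpos : (0 : ℝ) < H := by exact_mod_cast hHnat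
  have hgH : ∀ g : Fin s → ℤ, (∀ i, |(g i : ℝ)| ≤ C * X ^ (s + 1)) → ∀ j, |g (e j)| ≤ (H : ℤ) := by
    intro g hgC j
    have h3 := hgC (e j)
    have h4 : C * X ^ (s + 1) ≤ H := by
      rw [hH]
      exact Nat.le_ceil _
    have h5 : |((g (e j) : ℤ) : ℝ)| ≤ (H : ℝ) := h3.trans h4
    exact_mod_cast h5
  have hind : Indep2 (fun j => g (e j)) (fun j => g' (e j)) := by
    intro u v huv
    have hr : i0 ∈ Set.range e := by
      by_contra h1
      exact hqi0 (hqe i0 h1)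
    obtain ⟨j0, hj0⟩ := hr
    have h1 := huv j0
    simp only [hj0, hgi0', mul_zero] at h1
    have hu : u = 0 := (mul_eq_zero.1 h1).resolve_right hi0
    refine ⟨hu, ?_⟩
    by_contra hv
    apply hg0'
    funext i
    by_cases hi : i ∈ Set.range e
    · obtain ⟨j, rfl⟩ := hi
      have h2 := huv j
      rw [hu, zero_mul] at h2
      exact (mul_eq_zero.1 h2.symm).resolve_left hv
    · exact hgz' i (hq''e i hi)
  have h1 := h H hHnat (fun j => g (e j)) (fun j => g' (e j)) (hgH g hgC) (hgH g' hgC') hind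
  have h2 : ∀ g : Fin s → ℤ, (∀ i, i ∉ Set.range e → g i = 0) →
      ∑ j, (g (e j) : ℝ) * y (e j) = ∑ i, (g i : ℝ) * y i := by
    intro g hg
    rw [← Finset.sum_image (f := fun i => (g i : ℝ) * y i) (s := Finset.univ) (g := e) (fun x _ y _ h3 => he h3)]
    refine Finset.sum_subset (Finset.subset_univ _) fun i _ hi => ?_
    have h3 : i ∉ Set.range e := by
      rintro ⟨j, rfl⟩
      exact hi (Finset.mem_image_of_mem _ (Finset.mem_univ _))
    rw [hg i h3]
    simp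
  rw [h2 g (fun i hi => hgz i (hqe i hi)), h2 g' (fun i hi => hgz' i (hq''e i hi))] at h1
  have h3 : c / (2 * C) ^ κ * Real.exp (-(κ * (s + 1) * (N : ℝ) ^ a)) ≤ c / (H : ℝ) ^ κ := by
    have h4 : c / (2 * C) ^ κ * Real.exp (-(κ * (s + 1) * (N : ℝ) ^ a)) = c / (2 * C * X ^ (s + 1)) ^ κ := by
      have h5 : (X ^ (s + 1)) ^ κ = Real.exp (κ * (s + 1) * (N : ℝ) ^ a) := by
        rw [← pow_mul, hX, ← Real.exp_nat_mul]
        congr 1
        push_cast
        ring
      rw [mul_pow (2 * C) (X ^ (s + 1)), h5, ← div_div, Real.exp_neg, div_eq_mul_inv (c / (2 * C) ^ κ)]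
    rw [h4]
    exact div_le_div_of_nonneg_left hc.le (by positivity) (pow_le_pow_left₀ hHpos.le hH1 κ)
  have h4 : (s : ℝ) * ((s * X) ^ s * Real.exp (-(N : ℝ) ^ b)) ≤ C * Real.exp (s * (N : ℝ) ^ a - (N : ℝ) ^ b) := by
    rw [sub_eq_add_neg, Real.exp_add, hC, Real.exp_nat_mul, ← hX, mul_pow]
    calc (s : ℝ) * ((s : ℝ) ^ s * X ^ s * Real.exp (-(N : ℝ) ^ b)) ≤
        (s + 1) * ((s + 1) ^ s * X ^ s * Real.exp (-(N : ℝ) ^ b)) := by gcongr <;> linarith
      _ = _ := by ring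
  have h5 : c / (2 * C) ^ κ * Real.exp (-(κ * (s + 1) * (N : ℝ) ^ a)) ≤
      2 * C * Real.exp (s * (N : ℝ) ^ a - (N : ℝ) ^ b) := by
    have := h3.trans h1
    linarith
  have h6 : c / (2 * C) ^ κ / (2 * C) * Real.exp (-(κ * (s + 1) * (N : ℝ) ^ a)) ≤
      Real.exp (s * (N : ℝ) ^ a - (N : ℝ) ^ b) := by
    rw [div_mul_eq_mul_div, div_le_iff₀ (by linarith), mul_comm (Real.exp _) (2 * C)]
    exact h5
  have h7 : 0 < c / (2 * C) ^ κ / (2 * C) := by positivity
  rw [← Real.exp_log h7, ← Real.exp_add, Real.exp_le_exp] at h6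
  have h8 : -|Real.log (c / (2 * C) ^ κ / (2 * C))| ≤ Real.log (c / (2 * C) ^ κ / (2 * C)) := neg_abs_le _
  have h9 : 0 ≤ |Real.log (c / (2 * C) ^ κ / (2 * C))| := abs_nonneg _
  rw [hE] at g1
  nlinarith

theorem dz_le_abs (x : ℝ) : dz x ≤ |x| := by
  have := dz_le_int x 0
  simpa using this

theorem dz_one : dz 1 = 0 := by
  have h1 := dz_le_int 1 1
  have h2 := dz_nonneg 1
  rw [Int.cast_one, sub_self, abs_zero] at h1
  linarith

theorem cf_add {J k : ℕ} (v w : Fin (k + 1) → ℤ[X]) (q : Fin ((k + 1) * (J + 1))) : cf J (v + w) q = cf J v q + cf J w q := by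
  rw [cf, cf, cf, Pi.add_apply, coeff_add]

theorem cf_smul {J k : ℕ} (r : ℤ) (v : Fin (k + 1) → ℤ[X]) (q : Fin ((k + 1) * (J + 1))) :
    cf J (r • v) q = r * cf J v q := by
  rw [cf, cf, Pi.smul_apply, coeff_smul, smul_eq_mul]

/-- the coefficients of an element of the exceptional lattice -/
theorem cf_mem {J : ℕ} {z : ℝ} {k : ℕ} {t : Fin k → ℝ} {a b : ℝ} {N : ℕ} {v : Fin (k + 1) → ℤ[X]}
    (hv : v ∈ El J z t a b N) : (fun q => (cf J v q : ℚ)) ∈ Exc a b (ys J z t) N := by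
  obtain ⟨D, hD, hv⟩ := hv
  have h1 : ∀ w ∈ Submodule.span ℤ (Small J z t (Real.exp ((N : ℝ) ^ a)) (Real.exp (-(N : ℝ) ^ b))),
      (fun q => (cf J w q : ℚ)) ∈ Exc a b (ys J z t) N := by
    intro w hw
    refine Submodule.span_induction (p := fun w _ => (fun q => (cf J w q : ℚ)) ∈ Exc a b (ys J z t) N) ?_ ?_ ?_ ?_ hw
    · rintro x ⟨hx1, hx2, hx3⟩
      refine Submodule.subset_span ⟨cf J x, fun q => hx2 _ _, ?_, rfl⟩
      rw [ev_cf t x hx1]
      exact (dz_le_abs _).trans_lt hx3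
    · have h2 : (fun q => (cf J (0 : Fin (k + 1) → ℤ[X]) q : ℚ)) = 0 := by
        funext q
        simp [cf]
      rw [h2]
      exact Submodule.zero_mem _
    · intro x y _ _ hx hy
      have h2 : (fun q => (cf J (x + y) q : ℚ)) = (fun q => (cf J x q : ℚ)) + fun q => (cf J y q : ℚ) := by
        funext q
        rw [Pi.add_apply, cf_add]
        push_cast
        rfl
      rw [h2]
      exact Submodule.add_mem _ hx hy
    · intro r x _ hx
      have h2 : (fun q => (cf J (r • x) q : ℚ)) = (r : ℚ) • fun q => (cf J x q : ℚ) := by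
        funext q
        rw [Pi.smul_apply, cf_smul]
        push_cast
        rfl
      rw [h2]
      exact Submodule.smul_mem _ _ hx
  have h2 := Submodule.smul_mem _ ((D : ℚ)⁻¹) (h1 _ hv)
  convert h2 using 1
  funext q
  rw [Pi.smul_apply, cf_smul, smul_eq_mul]
  have h3 : (D : ℚ) ≠ 0 := by exact_mod_cast hD
  push_cast
  field_simp

/-- the constant 1 is exceptional -/
theorem one_mem {J : ℕ} {z : ℝ} {k : ℕ} {t : Fin k → ℝ} {a b : ℝ} {N : ℕ} :
    (Pi.single (finProdFinEquiv (0, (0 : Fin (J + 1)))) 1 : Fin ((k + 1) * (J + 1)) → ℚ) ∈ Exc a b (ys J z t) N := by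
  classical
  refine Submodule.subset_span ⟨Pi.single (finProdFinEquiv (0, (0 : Fin (J + 1)))) 1, fun i => ?_, ?_, ?_⟩
  · have h1 : 1 ≤ Real.exp ((N : ℝ) ^ a) := Real.one_le_exp (by positivity)
    rw [Pi.single_apply]
    split_ifs
    · rw [Int.cast_one, abs_one]
      exact h1
    · rw [Int.cast_zero, abs_zero]
      linarith
  · have h1 : ∑ i, ((Pi.single (finProdFinEquiv (0, (0 : Fin (J + 1)))) 1 : Fin ((k + 1) * (J + 1)) → ℤ) i : ℝ) *
        ys J z t i = 1 := by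
      rw [Finset.sum_eq_single (finProdFinEquiv (0, (0 : Fin (J + 1))))]
      · rw [Pi.single_eq_same, ys, Equiv.symm_apply_apply]
        simp
      · intro i _ hi
        rw [Pi.single_apply, if_neg hi, Int.cast_zero, zero_mul]
      · intro h2
        exact absurd (Finset.mem_univ _) h2
    rw [h1, dz_one]
    exact Real.exp_pos _
  · funext i
    rw [Pi.single_apply, Pi.single_apply]
    split_ifs <;> simp

/-- an element of the exceptional lattice whose coefficients, except the constant one, vanish outside a subfamily, gives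
a vector of the exceptional space with support in the subfamily -/
theorem el_sub {J : ℕ} {z : ℝ} {k : ℕ} {t : Fin k → ℝ} {a b : ℝ} {N : ℕ} {v : Fin (k + 1) → ℤ[X]}
    (hv : v ∈ El J z t a b N) {r : ℕ} (e : Fin r → Fin (k + 1) × Fin (J + 1))
    (he : ∀ p : Fin (k + 1) × Fin (J + 1), p ≠ (0, 0) → (∀ i, e i ≠ p) → (v p.1).coeff (p.2 : ℕ) = 0) :
    ∃ q ∈ Exc a b (ys J z t) N, (∀ i, i ∉ Set.range (fun j => finProdFinEquiv (e j)) → q i = 0) ∧
      ∀ i, e i ≠ (0, 0) → q (finProdFinEquiv (e i)) = ((v (e i).1).coeff ((e i).2 : ℕ) : ℚ) := by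
  classical
  by_cases h0 : ∃ i, e i = (0, 0)
  · refine ⟨fun q => (cf J v q : ℚ), cf_mem hv, fun i hi => ?_, fun i hi => ?_⟩
    · have h1 : ∀ j, e j ≠ finProdFinEquiv.symm i := by
        intro j hj
        exact hi ⟨j, by
          show finProdFinEquiv (e j) = i
          rw [hj, Equiv.apply_symm_apply]⟩
      have h2 : finProdFinEquiv.symm i ≠ ((0, 0) : Fin (k + 1) × Fin (J + 1)) := by
        obtain ⟨j, hj⟩ := h0
        intro h3
        exact h1 j (hj.trans h3.symm)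
      have h3 := he _ h2 h1
      show (((v (finProdFinEquiv.symm i).1).coeff ((finProdFinEquiv.symm i).2 : ℕ) : ℤ) : ℚ) = 0
      rw [h3, Int.cast_zero]
    · show (((v (finProdFinEquiv.symm (finProdFinEquiv (e i))).1).coeff
        ((finProdFinEquiv.symm (finProdFinEquiv (e i))).2 : ℕ) : ℤ) : ℚ) = _
      rw [Equiv.symm_apply_apply]
  · push Not at h0
    obtain ⟨c0, hc0⟩ : ∃ c0 : ℚ, c0 = (((v 0).coeff 0 : ℤ) : ℚ) := ⟨_, rfl⟩
    refine ⟨(fun q => (cf J v q : ℚ)) - c0 • Pi.single (finProdFinEquiv (0, (0 : Fin (J + 1)))) 1,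
      Submodule.sub_mem _ (cf_mem hv) (Submodule.smul_mem _ _ one_mem), fun i hi => ?_, fun i hi => ?_⟩
    · rw [Pi.sub_apply, Pi.smul_apply, Pi.single_apply]
      split_ifs with h1
      · show (((v (finProdFinEquiv.symm i).1).coeff ((finProdFinEquiv.symm i).2 : ℕ) : ℤ) : ℚ) - c0 • 1 = 0
        rw [h1, Equiv.symm_apply_apply, hc0]
        simp
      · have h2 : ∀ j, e j ≠ finProdFinEquiv.symm i := by
          intro j hj
          exact hi ⟨j, by
            show finProdFinEquiv (e j) = i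
            rw [hj, Equiv.apply_symm_apply]⟩
        have h3 : finProdFinEquiv.symm i ≠ ((0, 0) : Fin (k + 1) × Fin (J + 1)) := by
          intro h4
          apply h1
          rw [← h4, Equiv.apply_symm_apply]
        have h4 := he _ h3 h2
        show (((v (finProdFinEquiv.symm i).1).coeff ((finProdFinEquiv.symm i).2 : ℕ) : ℤ) : ℚ) - c0 • 0 = 0
        rw [h4, Int.cast_zero, smul_zero, sub_zero]
    · rw [Pi.sub_apply, Pi.smul_apply, Pi.single_apply, if_neg]
      · show (((v (finProdFinEquiv.symm (finProdFinEquiv (e i))).1).coeff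
          ((finProdFinEquiv.symm (finProdFinEquiv (e i))).2 : ℕ) : ℤ) : ℚ) - c0 • 0 = _
        rw [Equiv.symm_apply_apply, smul_zero, sub_zero]
      · intro h1
        exact hi (finProdFinEquiv.injective h1)

end Run7.h835.RR
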