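import Pool.Agent.Run7.h835.RR.F

/-!
# The numbers `w, w ^ 2, t, w t`, if `w` has a transcendence measure and `1, w, t` have a measure of linear independence
-/

set_option autoImplicit false

namespace Run7.h835.RR

open Finset Filter Run7.h683.AB Run7.h683.MR MeasureTheory ProbabilityTheory Topology Polynomial Matrix
open Pool.Agent.Y957.VK (dz mn)

/-- cubic polynomials -/
theorem cubic {w : ℝ} (hw : MT w) : ∃ (κ : ℕ) (c : ℝ), 0 < c ∧ ∀ a0 a1 a2 a3 : ℤ,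
    ¬ (a0 = 0 ∧ a1 = 0 ∧ a2 = 0 ∧ a3 = 0) → ∀ H : ℝ, 1 ≤ H → |(a0 : ℝ)| ≤ H → |(a1 : ℝ)| ≤ H → |(a2 : ℝ)| ≤ H →
      |(a3 : ℝ)| ≤ H → c ≤ H ^ κ * |(a0 : ℝ) + a1 * w + a2 * w ^ 2 + a3 * w ^ 3| := by
  obtain ⟨κ, c, hc, h⟩ := hw 3
  refine ⟨κ, c, hc, fun a0 a1 a2 a3 hne H hH h0 h1 h2 h3 => ?_⟩
  obtain ⟨P, hP⟩ : ∃ P : ℤ[X], P = C a0 + C a1 * X + C a2 * X ^ 2 + C a3 * X ^ 3 := ⟨_, rfl⟩
  have hcoef : ∀ j, P.coeff j = if j = 0 then a0 else if j = 1 then a1 else if j = 2 then a2 else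
      if j = 3 then a3 else 0 := by
    intro j
    rw [hP]
    simp only [coeff_add, coeff_C_mul, coeff_X_pow, coeff_X, coeff_C]
    split_ifs <;> first | omega | simp
  have hP0 : P ≠ 0 := by
    intro h0
    apply hne
    have e0 := hcoef 0
    have e1 := hcoef 1
    have e2 := hcoef 2
    have e3 := hcoef 3
    rw [h0] at e0 e1 e2 e3
    simp at e0 e1 e2 e3
    exact ⟨e0.symm, e1.symm, e2.symm, e3.symm⟩
  have hdeg : P.natDegree ≤ 3 := by
    rw [natDegree_le_iff_coeff_eq_zero]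
    intro j hj
    rw [hcoef]
    split_ifs <;> first | omega | rfl
  have hbd : ∀ j, |(P.coeff j : ℝ)| ≤ H := by
    intro j
    rw [hcoef]
    split_ifs
    · exact h0
    · exact h1
    · exact h2
    · exact h3
    · simp
      linarith
  have k1 := h P hP0 hdeg H hH hbd
  have k2 : aeval w P = (a0 : ℝ) + a1 * w + a2 * w ^ 2 + a3 * w ^ 3 := by
    rw [hP]
    simp only [map_add, map_mul, aeval_C, map_pow, aeval_X]
    simp only [algebraMap_int_eq, eq_intCast]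
  rw [k2] at k1
  exact k1

/-- a measure for the forms `a + b w + d t`, `d ≠ 0` -/
def Meas3 (w t : ℝ) : Prop := ∃ (k : ℕ) (c : ℝ), 0 < c ∧ ∀ (a b d : ℤ) (H : ℝ), 1 ≤ H → d ≠ 0 → |(b : ℝ)| ≤ H →
  |(d : ℝ)| ≤ H → c ≤ H ^ k * |(a : ℝ) + b * w + d * t|

theorem step {c ci Ci H x : ℝ} {K Ki : ℕ} (hCi : 0 < Ci) (hH : 1 ≤ H) (hx : 0 ≤ x) (hK : Ki ≤ K) (hc : c ≤ ci / Ci)
    (h : ci ≤ Ci * H ^ Ki * x) : c / H ^ K ≤ x := by
  have hH0 : 0 < H := by linarith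
  rw [div_le_iff₀ (by positivity)]
  rw [le_div_iff₀ hCi] at hc
  have h1 : H ^ Ki ≤ H ^ K := pow_le_pow_right₀ hH hK
  have h2 : Ci * c ≤ Ci * (x * H ^ K) := by
    calc Ci * c = c * Ci := mul_comm _ _
      _ ≤ ci := hc
      _ ≤ Ci * H ^ Ki * x := h
      _ ≤ Ci * H ^ K * x := by gcongr
      _ = _ := by ring
  exact le_of_mul_le_mul_left h2 hCi

/-- two forms in `w, w ^ 2, t, w t` which are not proportional are not both close to integers -/
theorem apart2_four {w t : ℝ} (hw : MT w) (hM : Meas3 w t) : Apart2 ![w, w ^ 2, t, w * t] := by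
  obtain ⟨κ, c, hc, hZ⟩ := cubic hw
  obtain ⟨k, c', hc', hW⟩ := hM
  obtain ⟨T, hT⟩ : ∃ T : ℝ, T = 1 + |w| + |w ^ 2| + |t| + |w * t| := ⟨_, rfl⟩
  have hwn := abs_nonneg w
  have hwn2 := abs_nonneg (w ^ 2)
  have htn := abs_nonneg t
  have hwtn := abs_nonneg (w * t)
  have hT1 : 1 ≤ T := by
    rw [hT]
    linarith
  have hT0 : 0 < T := by linarith
  obtain ⟨C1, hC1⟩ : ∃ C1 : ℝ, C1 = (4 * T) ^ κ * T := ⟨_, rfl⟩
  obtain ⟨C2, hC2⟩ : ∃ C2 : ℝ, C2 = T ^ κ := ⟨_, rfl⟩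
  obtain ⟨C3, hC3⟩ : ∃ C3 : ℝ, C3 = 2 ^ k * 2 := ⟨_, rfl⟩
  have hC10 : 0 < C1 := by rw [hC1]; positivity
  have hC20 : 0 < C2 := by rw [hC2]; positivity
  have hC30 : 0 < C3 := by rw [hC3]; positivity
  obtain ⟨K, hK⟩ : ∃ K : ℕ, K = 2 * κ + 2 * k + 2 := ⟨_, rfl⟩
  obtain ⟨cc, hcc⟩ : ∃ cc : ℝ, cc = min (c / C1) (min (c / C2) (c * c' / C3)) := ⟨_, rfl⟩
  have hcc0 : 0 < cc := by
    rw [hcc]
    positivity
  have hcc1 : cc ≤ c / C1 := by
    rw [hcc]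
    exact min_le_left _ _
  have hcc2 : cc ≤ c / C2 := by
    rw [hcc]
    exact (min_le_right _ _).trans (min_le_left _ _)
  have hcc3 : cc ≤ c * c' / C3 := by
    rw [hcc]
    exact (min_le_right _ _).trans (min_le_right _ _)
  refine ⟨K, cc, hcc0, fun H hH h h' hh hh' hI => ?_⟩
  have hHR : (1 : ℝ) ≤ H := by exact_mod_cast hH
  have hH0 : (0 : ℝ) < H := by linarith
  have near : ∀ h : Fin 4 → ℤ, (∀ i, |(h i : ℝ)| ≤ H) → ∃ (m : ℤ) (δ : ℝ),
      δ = (h 0 : ℝ) * w + h 1 * w ^ 2 + h 2 * t + h 3 * (w * t) - m ∧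
      dz (∑ i, (h i : ℝ) * (![w, w ^ 2, t, w * t] : Fin 4 → ℝ) i) = |δ| ∧ |(m : ℝ)| ≤ T * H := by
    intro h hh
    have hval : ∑ i, (h i : ℝ) * (![w, w ^ 2, t, w * t] : Fin 4 → ℝ) i =
        (h 0 : ℝ) * w + h 1 * w ^ 2 + h 2 * t + h 3 * (w * t) := by
      rw [Fin.sum_univ_four]
      rfl
    rw [hval]
    refine ⟨round ((h 0 : ℝ) * w + h 1 * w ^ 2 + h 2 * t + h 3 * (w * t)), _, rfl, rfl, ?_⟩
    have h1 := abs_sub_round ((h 0 : ℝ) * w + h 1 * w ^ 2 + h 2 * t + h 3 * (w * t))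
    have e1 : |(h 0 : ℝ) * w| ≤ H * |w| := by
      rw [abs_mul]
      exact mul_le_mul_of_nonneg_right (hh 0) (abs_nonneg _)
    have e2 : |(h 1 : ℝ) * w ^ 2| ≤ H * |w ^ 2| := by
      rw [abs_mul]
      exact mul_le_mul_of_nonneg_right (hh 1) (abs_nonneg _)
    have e3 : |(h 2 : ℝ) * t| ≤ H * |t| := by
      rw [abs_mul]
      exact mul_le_mul_of_nonneg_right (hh 2) (abs_nonneg _)
    have e4 : |(h 3 : ℝ) * (w * t)| ≤ H * |w * t| := by
      rw [abs_mul]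
      exact mul_le_mul_of_nonneg_right (hh 3) (abs_nonneg _)
    have f1 := abs_add_le ((h 0 : ℝ) * w + h 1 * w ^ 2 + h 2 * t) (h 3 * (w * t))
    have f2 := abs_add_le ((h 0 : ℝ) * w + h 1 * w ^ 2) (h 2 * t)
    have f3 := abs_add_le ((h 0 : ℝ) * w) (h 1 * w ^ 2)
    have f4 := abs_sub_abs_le_abs_sub
      ((round ((h 0 : ℝ) * w + h 1 * w ^ 2 + h 2 * t + h 3 * (w * t)) : ℤ) : ℝ)
      ((h 0 : ℝ) * w + h 1 * w ^ 2 + h 2 * t + h 3 * (w * t))
    rw [abs_sub_comm] at f4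
    rw [hT]
    nlinarith
  -- the case `B = 0`
  have caseB : ∀ (h : Fin 4 → ℤ) (m : ℤ) (δ x : ℝ),
      δ = (h 0 : ℝ) * w + h 1 * w ^ 2 + h 2 * t + h 3 * (w * t) - m → |(m : ℝ)| ≤ T * H → (∀ i, |(h i : ℝ)| ≤ H) →
        h ≠ 0 → h 2 = 0 → h 3 = 0 → |δ| ≤ x → cc / (H : ℝ) ^ K ≤ x := by
    intro h m δ x hδ hm hh h0 h2 h3 hx
    have hHT : (H : ℝ) ≤ T * H := by nlinarith
    have k1 := hZ (-m) (h 0) (h 1) 0 (by
      rintro ⟨_, k1, k2, _⟩
      apply h0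
      funext i
      fin_cases i
      · exact k1
      · exact k2
      · exact h2
      · exact h3) (T * H) (by nlinarith) (by
      push_cast
      rw [abs_neg]
      exact hm) ((hh 0).trans hHT) ((hh 1).trans hHT) (by
      rw [Int.cast_zero, abs_zero]
      positivity)
    have k2 : (((-m : ℤ) : ℝ) + h 0 * w + h 1 * w ^ 2 + ((0 : ℤ) : ℝ) * w ^ 3) = δ := by
      rw [hδ, h2, h3]
      push_cast
      ring
    rw [k2] at k1
    refine step hC20 hHR ((abs_nonneg _).trans hx) (show κ ≤ K by omega) hcc2 ?_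
    rw [hC2, ← mul_pow]
    exact k1.trans (mul_le_mul_of_nonneg_left hx (by positivity))
  have hbd : ∀ i, |(h i : ℝ)| ≤ H := fun i => by
    have := hh i
    exact_mod_cast this
  have hbd' : ∀ i, |(h' i : ℝ)| ≤ H := fun i => by
    have := hh' i
    exact_mod_cast this
  obtain ⟨m, δ, hδ, hdz, hm⟩ := near h hbd
  obtain ⟨m', δ', hδ', hdz', hm'⟩ := near h' hbd'
  rw [hdz, hdz']
  have hne : h ≠ 0 := by
    intro h0
    have h1 := hI 1 0 (fun i => by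
      rw [h0]
      simp)
    exact one_ne_zero h1.1
  have hne' : h' ≠ 0 := by
    intro h0
    have h1 := hI 0 1 (fun i => by
      rw [h0]
      simp)
    exact one_ne_zero h1.2
  have hda := abs_nonneg δ
  have hda' := abs_nonneg δ'
  by_cases hB : h 2 = 0 ∧ h 3 = 0
  · exact caseB h m δ _ hδ hm hbd hne hB.1 hB.2 (by linarith)
  by_cases hB' : h' 2 = 0 ∧ h' 3 = 0
  · exact caseB h' m' δ' _ hδ' hm' hbd' hne' hB'.1 hB'.2 (by linarith)
  have hBw : ∀ h : Fin 4 → ℤ, (∀ i, |(h i : ℝ)| ≤ H) → |(h 2 : ℝ) + h 3 * w| ≤ T * H := by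
    intro h hh
    have e1 := abs_add_le (h 2 : ℝ) (h 3 * w)
    rw [abs_mul] at e1
    have e2 := mul_le_mul_of_nonneg_right (hh 3) hwn
    have e3 := hh 2
    rw [hT]
    nlinarith
  by_cases hP : (-m * h' 2 + m' * h 2 = 0 ∧ -m * h' 3 + h 0 * h' 2 + m' * h 3 - h' 0 * h 2 = 0 ∧
      h 0 * h' 3 + h 1 * h' 2 - h' 0 * h 3 - h' 1 * h 2 = 0 ∧ h 1 * h' 3 - h' 1 * h 3 = 0)
  · obtain ⟨q0, q1, q2, q3⟩ := hP
    by_cases hρ : h 2 * h' 3 - h' 2 * h 3 = 0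
    · -- proportional
      exfalso
      by_cases h2 : h 2 = 0
      · have h3 : h 3 ≠ 0 := fun h3 => hB ⟨h2, h3⟩
        have h2' : h' 2 = 0 := by
          rw [h2] at hρ
          have : h' 2 * h 3 = 0 := by linarith
          exact (mul_eq_zero.1 this).resolve_right h3
        have h5 := hI (h' 3) (h 3) (fun i => by
          fin_cases i
          · show h' 3 * h 0 = h 3 * h' 0
            rw [h2, h2'] at q2
            linarith
          · show h' 3 * h 1 = h 3 * h' 1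
            linarith
          · show h' 3 * h 2 = h 3 * h' 2
            rw [h2, h2']
            ring
          · show h' 3 * h 3 = h 3 * h' 3
            ring)
        exact h3 h5.2
      · have e0 : h' 2 * h 0 = h 2 * h' 0 := by
          have e1 : h 2 * (h' 2 * h 0 - h 2 * h' 0) = 0 := by
            linear_combination (h 2) * q1 + m * hρ - h 3 * q0
          have := (mul_eq_zero.1 e1).resolve_left h2
          linarith
        have e1 : h' 2 * h 1 = h 2 * h' 1 := by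
          have e1 : h 2 * (h' 2 * h 1 - h 2 * h' 1) = 0 := by
            linear_combination (h 2) * q2 - h 0 * hρ - h 3 * e0
          have := (mul_eq_zero.1 e1).resolve_left h2
          linarith
        have h5 := hI (h' 2) (h 2) (fun i => by
          fin_cases i
          · exact e0
          · exact e1
          · show h' 2 * h 2 = h 2 * h' 2
            ring
          · show h' 2 * h 3 = h 2 * h' 3
            linarith)
        exact h2 h5.2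
    · -- `ρ A = B p`
      obtain ⟨ρ, hρd⟩ : ∃ ρ : ℤ, ρ = h 2 * h' 3 - h' 2 * h 3 := ⟨_, rfl⟩
      obtain ⟨p0, hp0⟩ : ∃ p0 : ℤ, p0 = -(h' 3 * m) + h 3 * m' := ⟨_, rfl⟩
      obtain ⟨p1, hp1⟩ : ∃ p1 : ℤ, p1 = h' 3 * h 0 - h 3 * h' 0 := ⟨_, rfl⟩
      have hρ0 : ρ ≠ 0 := by
        rw [hρd]
        exact hρ
      have hprod : ∀ u v : ℝ, |u| ≤ H → |v| ≤ H → |u * v| ≤ (H : ℝ) ^ 2 := by
        intro u v hu hv
        rw [abs_mul, sq]
        exact mul_le_mul hu hv (abs_nonneg _) hH0.le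
      have hρb : |(ρ : ℝ)| ≤ 2 * (H : ℝ) ^ 2 := by
        rw [hρd]
        push_cast
        have e1 := abs_sub ((h 2 : ℝ) * h' 3) (h' 2 * h 3)
        have e2 := hprod _ _ (hbd 2) (hbd' 3)
        have e3 := hprod _ _ (hbd' 2) (hbd 3)
        linarith
      have hp1b : |(p1 : ℝ)| ≤ 2 * (H : ℝ) ^ 2 := by
        rw [hp1]
        push_cast
        have e1 := abs_sub ((h' 3 : ℝ) * h 0) (h 3 * h' 0)
        have e2 := hprod _ _ (hbd' 3) (hbd 0)
        have e3 := hprod _ _ (hbd 3) (hbd' 0)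
        linarith
      have k1 := hW p0 p1 ρ (2 * (H : ℝ) ^ 2) (by nlinarith) hρ0 hp1b hρb
      have k2 := hZ (h 2) (h 3) 0 0 (by
        rintro ⟨e1, e2, _, _⟩
        exact hB ⟨e1, e2⟩) H hHR (hbd 2) (hbd 3) (by
        rw [Int.cast_zero, abs_zero]
        exact hH0.le) (by
        rw [Int.cast_zero, abs_zero]
        exact hH0.le)
      have q0R : -(m : ℝ) * h' 2 + m' * h 2 = 0 := by exact_mod_cast q0
      have q1R : -(m : ℝ) * h' 3 + h 0 * h' 2 + m' * h 3 - h' 0 * h 2 = 0 := by exact_mod_cast q1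
      have q2R : (h 0 : ℝ) * h' 3 + h 1 * h' 2 - h' 0 * h 3 - h' 1 * h 2 = 0 := by exact_mod_cast q2
      have q3R : (h 1 : ℝ) * h' 3 - h' 1 * h 3 = 0 := by exact_mod_cast q3
      have k3 : (ρ : ℝ) * δ = ((h 2 : ℝ) + h 3 * w + ((0 : ℤ) : ℝ) * w ^ 2 + ((0 : ℤ) : ℝ) * w ^ 3) * ((p0 : ℝ) + p1 * w + ρ * t) := by
        rw [hδ, hρd, hp0, hp1]
        push_cast
        linear_combination (-(h 3 : ℝ)) * q0R - (h 3 * w : ℝ) * q1R - (h 3 * w ^ 2 : ℝ) * q2R +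
          ((h 2 : ℝ) * w ^ 2) * q3R
      have k4 : c * c' ≤ C3 * (H : ℝ) ^ (2 * k + κ + 2) * |δ| := by
        calc c * c' ≤ ((H : ℝ) ^ κ * |(h 2 : ℝ) + h 3 * w + ((0 : ℤ) : ℝ) * w ^ 2 + ((0 : ℤ) : ℝ) * w ^ 3|) *
              ((2 * (H : ℝ) ^ 2) ^ k * |(p0 : ℝ) + p1 * w + ρ * t|) :=
            mul_le_mul k2 k1 hc'.le (by positivity)
          _ = (H : ℝ) ^ κ * (2 * (H : ℝ) ^ 2) ^ k * |(ρ : ℝ) * δ| := by
            rw [k3, abs_mul]
            ring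
          _ = (H : ℝ) ^ κ * (2 * (H : ℝ) ^ 2) ^ k * (|(ρ : ℝ)| * |δ|) := by
            rw [abs_mul]
          _ ≤ (H : ℝ) ^ κ * (2 * (H : ℝ) ^ 2) ^ k * ((2 * (H : ℝ) ^ 2) * |δ|) := by
            gcongr
          _ = _ := by
            rw [hC3, mul_pow, ← pow_mul]
            ring
      exact (step hC30 hHR hda (show 2 * k + κ + 2 ≤ K by omega) hcc3 k4).trans (by linarith)
  · -- `A B' - A' B ≠ 0`
    have hprod : ∀ u v : ℝ, |u| ≤ T * H → |v| ≤ H → |u * v| ≤ T * (H : ℝ) ^ 2 := by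
      intro u v hu hv
      rw [abs_mul]
      calc |u| * |v| ≤ (T * H) * H := mul_le_mul hu hv (abs_nonneg _) (by positivity)
        _ = _ := by ring
    have hHT : (H : ℝ) ≤ T * H := by nlinarith
    have hb : ∀ i, |(h i : ℝ)| ≤ T * H := fun i => (hbd i).trans hHT
    have hb' : ∀ i, |(h' i : ℝ)| ≤ T * H := fun i => (hbd' i).trans hHT
    have s4 : ∀ x1 x2 x3 x4 : ℝ, |x1| ≤ T * (H : ℝ) ^ 2 → |x2| ≤ T * (H : ℝ) ^ 2 → |x3| ≤ T * (H : ℝ) ^ 2 →
        |x4| ≤ T * (H : ℝ) ^ 2 → |x1 + x2 - x3 - x4| ≤ 4 * T * (H : ℝ) ^ 2 := by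
      intro x1 x2 x3 x4 y1 y2 y3 y4
      have e1 := abs_sub (x1 + x2 - x3) x4
      have e2 := abs_sub (x1 + x2) x3
      have e3 := abs_add_le x1 x2
      linarith
    have hz0 : |(0 : ℝ)| ≤ T * (H : ℝ) ^ 2 := by
      rw [abs_zero]
      positivity
    have k1 := hZ _ _ _ _ hP (4 * T * (H : ℝ) ^ 2) (by nlinarith) (by
      have := s4 (m' * h 2) 0 (m * h' 2) 0 (hprod _ _ hm' (hbd 2)) hz0 (hprod _ _ hm (hbd' 2)) hz0
      push_cast
      convert this using 2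
      ring) (by
      have := s4 (h 0 * h' 2) (m' * h 3) (h' 0 * h 2) (m * h' 3) (hprod _ _ (hb 0) (hbd' 2)) (hprod _ _ hm' (hbd 3))
        (hprod _ _ (hb' 0) (hbd 2)) (hprod _ _ hm (hbd' 3))
      push_cast
      convert this using 2
      ring) (by
      have := s4 (h 0 * h' 3) (h 1 * h' 2) (h' 0 * h 3) (h' 1 * h 2) (hprod _ _ (hb 0) (hbd' 3))
        (hprod _ _ (hb 1) (hbd' 2)) (hprod _ _ (hb' 0) (hbd 3)) (hprod _ _ (hb' 1) (hbd 2))
      push_cast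
      exact this) (by
      have := s4 (h 1 * h' 3) 0 (h' 1 * h 3) 0 (hprod _ _ (hb 1) (hbd' 3)) hz0 (hprod _ _ (hb' 1) (hbd 3)) hz0
      push_cast
      convert this using 2
      ring)
    obtain ⟨Pw, hPw⟩ : ∃ Pw : ℝ, Pw = (((-m * h' 2 + m' * h 2 : ℤ) : ℝ) +
      ((-m * h' 3 + h 0 * h' 2 + m' * h 3 - h' 0 * h 2 : ℤ) : ℝ) * w +
      ((h 0 * h' 3 + h 1 * h' 2 - h' 0 * h 3 - h' 1 * h 2 : ℤ) : ℝ) * w ^ 2 +
      ((h 1 * h' 3 - h' 1 * h 3 : ℤ) : ℝ) * w ^ 3) := ⟨_, rfl⟩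
    rw [← hPw] at k1
    have k2 : Pw = ((h' 2 : ℝ) + h' 3 * w) * δ - ((h 2 : ℝ) + h 3 * w) * δ' := by
      rw [hPw, hδ, hδ']
      push_cast
      ring
    have k3 : |Pw| ≤ T * H * (|δ| + |δ'|) := by
      rw [k2]
      have e1 := abs_sub (((h' 2 : ℝ) + h' 3 * w) * δ) (((h 2 : ℝ) + h 3 * w) * δ')
      have e2 : |((h' 2 : ℝ) + h' 3 * w) * δ| ≤ T * H * |δ| := by
        rw [abs_mul]
        exact mul_le_mul_of_nonneg_right (hBw h' hbd') hda
      have e3 : |((h 2 : ℝ) + h 3 * w) * δ'| ≤ T * H * |δ'| := by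
        rw [abs_mul]
        exact mul_le_mul_of_nonneg_right (hBw h hbd) hda'
      linarith
    refine step hC10 hHR (by linarith) (show 2 * κ + 1 ≤ K by omega) hcc1 ?_
    calc c ≤ (4 * T * (H : ℝ) ^ 2) ^ κ * |Pw| := k1
      _ ≤ (4 * T * (H : ℝ) ^ 2) ^ κ * (T * H * (|δ| + |δ'|)) := by gcongr
      _ = _ := by
        rw [hC1, mul_pow (4 * T), ← pow_mul]
        ring

/-- the numbers `w, t` -/
theorem meas_two {w t : ℝ} (hw : MT w) (hM : Meas3 w t) : Meas ![w, t] := by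
  obtain ⟨κ, c, hc, hZ⟩ := cubic hw
  obtain ⟨k, c', hc', hW⟩ := hM
  obtain ⟨T, hT⟩ : ∃ T : ℝ, T = 1 + |w| := ⟨_, rfl⟩
  have hwn := abs_nonneg w
  have hT1 : 1 ≤ T := by
    rw [hT]
    linarith
  have hT0 : 0 < T := by linarith
  obtain ⟨K, hK⟩ : ∃ K : ℕ, K = κ + k := ⟨_, rfl⟩
  refine ⟨K, min (c / T ^ κ) (c' / 1), by positivity, fun h h0 H hh => ?_⟩
  have hbd : ∀ i, |(h i : ℝ)| ≤ H := fun i => by
    have := hh i
    exact_mod_cast this
  have hHR : (1 : ℝ) ≤ H := by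
    obtain ⟨i, hi⟩ := Function.ne_iff.1 h0
    have h1 : (1 : ℤ) ≤ |h i| := Int.one_le_abs hi
    have h2 : (1 : ℤ) ≤ H := h1.trans (hh i)
    exact_mod_cast h2
  have hval : ∑ i, (h i : ℝ) * (![w, t] : Fin 2 → ℝ) i = (h 0 : ℝ) * w + h 1 * t := by
    rw [Fin.sum_univ_two]
    rfl
  rw [hval]
  obtain ⟨m, hm⟩ : ∃ m : ℤ, m = round ((h 0 : ℝ) * w + h 1 * t) := ⟨_, rfl⟩
  have hd : dz ((h 0 : ℝ) * w + h 1 * t) = |(h 0 : ℝ) * w + h 1 * t - m| := by
    rw [hm]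
    rfl
  rw [hd]
  by_cases h1 : h 1 = 0
  · have h00 : h 0 ≠ 0 := by
      intro h2
      apply h0
      funext i
      fin_cases i
      · exact h2
      · exact h1
    have hmb : |(m : ℝ)| ≤ T * H := by
      have f1 := abs_sub_round ((h 0 : ℝ) * w + h 1 * t)
      rw [← hm, h1, Int.cast_zero, zero_mul, add_zero] at f1
      have f2 := abs_sub_abs_le_abs_sub (m : ℝ) ((h 0 : ℝ) * w)
      rw [abs_sub_comm] at f2
      have f3 : |(h 0 : ℝ) * w| ≤ H * |w| := by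
        rw [abs_mul]
        exact mul_le_mul_of_nonneg_right (hbd 0) hwn
      rw [hT]
      nlinarith
    have k1 := hZ (-m) (h 0) 0 0 (by
      rintro ⟨_, e, _, _⟩
      exact h00 e) (T * H) (by nlinarith) (by
      push_cast
      rw [abs_neg]
      exact hmb) ((hbd 0).trans (by nlinarith)) (by
      rw [Int.cast_zero, abs_zero]
      positivity) (by
      rw [Int.cast_zero, abs_zero]
      positivity)
    have k2 : (((-m : ℤ) : ℝ) + h 0 * w + ((0 : ℤ) : ℝ) * w ^ 2 + ((0 : ℤ) : ℝ) * w ^ 3) = (h 0 : ℝ) * w + h 1 * t - m := by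
      rw [h1]
      push_cast
      ring
    rw [k2] at k1
    refine step (Ci := T ^ κ) (by positivity) hHR (abs_nonneg _) (show κ ≤ K by omega) (min_le_left _ _) ?_
    rw [← mul_pow]
    exact k1
  · have k1 := hW (-m) (h 0) (h 1) H hHR h1 (hbd 0) (hbd 1)
    have k2 : (((-m : ℤ) : ℝ) + h 0 * w + h 1 * t) = (h 0 : ℝ) * w + h 1 * t - m := by
      push_cast
      ring
    rw [k2] at k1
    refine step (Ci := 1) one_pos hHR (abs_nonneg _) (show k ≤ K by omega) (min_le_right _ _) ?_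
    rw [one_mul]
    exact k1

end Run7.h835.RR
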