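import Pool.Agent.Run7.h835.RR.G

/-!
# The exceptional lattice for two numbers, the first one with a measure of linear independence
-/

set_option autoImplicit false

namespace Run7.h835.RR

open Finset Filter Run7.h683.AB Run7.h683.MR MeasureTheory ProbabilityTheory Topology Polynomial Matrix
open Pool.Agent.Y957.VK (dz mn)

theorem el_comb {J : ℕ} {z : ℝ} {k : ℕ} {t : Fin k → ℝ} {a b : ℝ} {N : ℕ} {v v' : Fin (k + 1) → ℤ[X]}
    (hv : v ∈ El J z t a b N) (hv' : v' ∈ El J z t a b N) (c c' : ℤ) : c • v + c' • v' ∈ El J z t a b N := by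
  obtain ⟨D, hD, h⟩ := hv
  obtain ⟨D', hD', h'⟩ := hv'
  refine ⟨D * D', mul_ne_zero hD hD', ?_⟩
  have h1 : (D * D') • (c • v + c' • v') = (D' * c) • (D • v) + (D * c') • (D' • v') := by
    rw [smul_add, smul_smul, smul_smul, smul_smul, smul_smul]
    congr 2 <;> ring
  rw [h1]
  exact Submodule.add_mem _ (Submodule.smul_mem _ _ h) (Submodule.smul_mem _ _ h')

theorem el_mono {J J' : ℕ} (hJ : J ≤ J') {z : ℝ} {k : ℕ} {t : Fin k → ℝ} {a b : ℝ} {N : ℕ} {v : Fin (k + 1) → ℤ[X]}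
    (hv : v ∈ El J z t a b N) : v ∈ El J' z t a b N := by
  obtain ⟨D, hD, h⟩ := hv
  have h1 : Small J z t (Real.exp ((N : ℝ) ^ a)) (Real.exp (-(N : ℝ) ^ b)) ⊆
      Small J' z t (Real.exp ((N : ℝ) ^ a)) (Real.exp (-(N : ℝ) ^ b)) :=
    fun x hx => ⟨fun j => (hx.1 j).trans hJ, hx.2.1, hx.2.2⟩
  exact ⟨D, hD, Submodule.span_mono h1 h⟩

/-- the exact relations are exceptional -/
theorem el_exact {a b : ℝ} (ha : 0 < a) {z : ℝ} {k : ℕ} {t : Fin k → ℝ} (J : ℕ) (v : Fin (k + 1) → ℤ[X])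
    (hv : ∀ j, (v j).natDegree ≤ J) (h0 : ev z t v = 0) : ∀ᶠ N : ℕ in atTop, v ∈ El J z t a b N := by
  obtain ⟨M, hM⟩ : ∃ M : ℝ, ∀ j i, |((v j).coeff i : ℝ)| ≤ M := by
    refine ⟨∑ j, ∑ i ∈ range (J + 1), |((v j).coeff i : ℝ)|, fun j i => ?_⟩
    by_cases hi : i ≤ J
    · have h1 : |((v j).coeff i : ℝ)| ≤ ∑ i ∈ range (J + 1), |((v j).coeff i : ℝ)| :=
        Finset.single_le_sum (f := fun i => |((v j).coeff i : ℝ)|) (fun _ _ => abs_nonneg _)
          (Finset.mem_range.2 (Nat.lt_succ_of_le hi))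
      refine h1.trans ?_
      exact Finset.single_le_sum (f := fun j => ∑ i ∈ range (J + 1), |((v j).coeff i : ℝ)|)
        (fun _ _ => Finset.sum_nonneg fun _ _ => abs_nonneg _) (Finset.mem_univ j)
    · rw [coeff_eq_zero_of_natDegree_lt (lt_of_le_of_lt (hv j) (by omega)), Int.cast_zero, abs_zero]
      exact Finset.sum_nonneg fun _ _ => Finset.sum_nonneg fun _ _ => abs_nonneg _
  have h1 : Tendsto (fun N : ℕ => Real.exp ((N : ℝ) ^ a)) atTop atTop :=
    Real.tendsto_exp_atTop.comp ((tendsto_rpow_atTop ha).comp tendsto_natCast_atTop_atTop)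
  filter_upwards [h1.eventually_ge_atTop M] with N hN
  refine ⟨1, one_ne_zero, ?_⟩
  rw [one_smul]
  refine Submodule.subset_span ⟨hv, fun j i => (hM j i).trans hN, ?_⟩
  rw [h0, abs_zero]
  exact Real.exp_pos _

theorem ys_at {J : ℕ} {z : ℝ} {k : ℕ} (t : Fin k → ℝ) (p : Fin (k + 1) × Fin (J + 1)) :
    ys J z t (finProdFinEquiv p) = z ^ (p.2 : ℕ) * (Fin.cons 1 t : Fin (k + 1) → ℝ) p.1 := by
  rw [ys, Equiv.symm_apply_apply]

theorem single_mem {a b : ℝ} {J : ℕ} {w : ℝ} {k : ℕ} {t : Fin k → ℝ} {N : ℕ}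
    (g : ∀ v ∈ Submodule.span ℤ[X] (El J w t a b N), (∀ j : Fin k, v j.succ = 0) → v = 0) {v : Fin (k + 1) → ℤ[X]}
    (hv : v ∈ El J w t a b N) (h : ∀ j : Fin k, v j.succ = 0) : v = 0 := g v (Submodule.subset_span hv) h

theorem poly_zero {P : ℤ[X]} (h : P.natDegree ≤ 1) (h0 : P.coeff 0 = 0) (h1 : P.coeff 1 = 0) : P = 0 := by
  refine Polynomial.ext fun i => ?_
  rw [coeff_zero]
  rcases i with _ | _ | i
  · exact h0
  · exact h1
  · exact coeff_eq_zero_of_natDegree_lt (by omega)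

/-- the exceptional lattice contains no form in `1, w, t` -/
theorem el_two {a b : ℝ} (ha : 0 < a) (hab : a < b) {w t : ℝ} (hw : MT w) (hM : Meas3 w t) (J : ℕ) (t' : ℝ) :
    ∀ᶠ N : ℕ in atTop, ∀ v ∈ El J w ![t, t'] a b N, (v 0).natDegree ≤ 1 → (v 1).natDegree = 0 → v 2 = 0 → v = 0 := by
  obtain ⟨e, he⟩ : ∃ e : Fin 2 → Fin 3 × Fin (J + 2 + 1), e = ![(0, ⟨1, by omega⟩), (1, ⟨0, by omega⟩)] := ⟨_, rfl⟩
  have hinj : Function.Injective fun j => finProdFinEquiv (e j) := by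
    refine finProdFinEquiv.injective.comp ?_
    intro x y hxy
    rw [he] at hxy
    fin_cases x <;> fin_cases y <;> simp_all
  have hy : (fun j => ys (J + 2) w ![t, t'] (finProdFinEquiv (e j))) = ![w, t] := by
    funext j
    rw [ys_at, he]
    fin_cases j
    · show w ^ 1 * 1 = w
      ring
    · show w ^ 0 * t = t
      ring
  filter_upwards [exc_inter ha hab (ys (J + 2) w ![t, t']) (fun j => finProdFinEquiv (e j)) hinj (by
    rw [hy]
    exact meas_two hw hM), sat_small ha hab hw J ![t, t']] with N g1 g2 v hv hv0 hv1 hv2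
  obtain ⟨q, hq, hqs, hqe⟩ := el_sub (el_mono (show J ≤ J + 2 by omega) hv) e (by
    intro p hp0 hpe
    obtain ⟨j, i⟩ := p
    fin_cases j
    · show (v 0).coeff (i : ℕ) = 0
      refine coeff_eq_zero_of_natDegree_lt (lt_of_le_of_lt hv0 ?_)
      have h1 : (i : ℕ) ≠ 0 := fun h => hp0 (Prod.ext rfl (Fin.ext h))
      have h2 : (i : ℕ) ≠ 1 := fun h => hpe 0 (by
        rw [he]
        exact Prod.ext rfl (Fin.ext h.symm))
      omega
    · show (v 1).coeff (i : ℕ) = 0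
      refine coeff_eq_zero_of_natDegree_lt ?_
      rw [hv1]
      have h1 : (i : ℕ) ≠ 0 := fun h => hpe 1 (by
        rw [he]
        exact Prod.ext rfl (Fin.ext h.symm))
      omega
    · show (v 2).coeff (i : ℕ) = 0
      rw [hv2, coeff_zero])
  have h1 := g1 q hq hqs
  have h2 := hqe 1 (by
    rw [he]
    intro h
    have h3 : (1 : Fin 3) = 0 := congrArg Prod.fst h
    exact absurd h3 (by decide))
  rw [h1, Pi.zero_apply, he] at h2
  have h3 : (v 1).coeff 0 = 0 := by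
    have h4 : (0 : ℚ) = (((v 1).coeff 0 : ℤ) : ℚ) := h2
    exact_mod_cast h4.symm
  have h4 : v 1 = 0 := poly_zero (by omega) h3 (coeff_eq_zero_of_natDegree_lt (by omega))
  refine g2 v (span_el (Submodule.subset_span hv)) fun j => ?_
  fin_cases j
  · exact h4
  · exact hv2

/-- the elements of the exceptional lattice which are forms in `1, w, w ^ 2, t, w t` are on a line -/
theorem el_four {a b : ℝ} (ha : 0 < a) (hab : a < b) {w t : ℝ} (hw : MT w) (hM : Meas3 w t) (J : ℕ) (t' : ℝ) :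
    ∀ᶠ N : ℕ in atTop, ∀ v ∈ El J w ![t, t'] a b N, ∀ v' ∈ El J w ![t, t'] a b N,
      (v 0).natDegree ≤ 2 → (v 1).natDegree ≤ 1 → v 2 = 0 → (v' 0).natDegree ≤ 2 → (v' 1).natDegree ≤ 1 → v' 2 = 0 →
        ∃ c c' : ℤ, (c ≠ 0 ∨ c' ≠ 0) ∧ c • v = c' • v' := by
  obtain ⟨e, he⟩ : ∃ e : Fin 4 → Fin 3 × Fin (J + 2 + 1),
    e = ![(0, ⟨1, by omega⟩), (0, ⟨2, by omega⟩), (1, ⟨0, by omega⟩), (1, ⟨1, by omega⟩)] := ⟨_, rfl⟩
  have hinj : Function.Injective fun j => finProdFinEquiv (e j) := by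
    refine finProdFinEquiv.injective.comp ?_
    intro x y hxy
    rw [he] at hxy
    fin_cases x <;> fin_cases y <;> simp_all
  have hy : (fun j => ys (J + 2) w ![t, t'] (finProdFinEquiv (e j))) = ![w, w ^ 2, t, w * t] := by
    funext j
    rw [ys_at, he]
    fin_cases j
    · show w ^ 1 * 1 = w
      ring
    · show w ^ 2 * 1 = w ^ 2
      ring
    · show w ^ 0 * t = t
      ring
    · show w ^ 1 * t = w * t
      ring
  filter_upwards [exc_inter2 ha hab (ys (J + 2) w ![t, t']) (fun j => finProdFinEquiv (e j)) hinj (by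
    rw [hy]
    exact apart2_four hw hM), sat_small ha hab hw J ![t, t']] with N g1 g2 v hv v' hv' d0 d1 d2 d0' d1' d2'
  have key : ∀ v ∈ El J w ![t, t'] a b N, (v 0).natDegree ≤ 2 → (v 1).natDegree ≤ 1 → v 2 = 0 →
      ∃ q ∈ Exc a b (ys (J + 2) w ![t, t']) N, (∀ i, i ∉ Set.range (fun j => finProdFinEquiv (e j)) → q i = 0) ∧
        ∀ i, e i ≠ (0, 0) → q (finProdFinEquiv (e i)) = ((v (e i).1).coeff ((e i).2 : ℕ) : ℚ) := by
    intro v hv d0 d1 d2
    refine el_sub (el_mono (show J ≤ J + 2 by omega) hv) e ?_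
    intro p hp0 hpe
    obtain ⟨j, i⟩ := p
    fin_cases j
    · show (v 0).coeff (i : ℕ) = 0
      refine coeff_eq_zero_of_natDegree_lt (lt_of_le_of_lt d0 ?_)
      have h1 : (i : ℕ) ≠ 0 := fun h => hp0 (Prod.ext rfl (Fin.ext h))
      have h2 : (i : ℕ) ≠ 1 := fun h => hpe 0 (by
        rw [he]
        exact Prod.ext rfl (Fin.ext h.symm))
      have h3 : (i : ℕ) ≠ 2 := fun h => hpe 1 (by
        rw [he]
        exact Prod.ext rfl (Fin.ext h.symm))
      omega
    · show (v 1).coeff (i : ℕ) = 0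
      refine coeff_eq_zero_of_natDegree_lt (lt_of_le_of_lt d1 ?_)
      have h1 : (i : ℕ) ≠ 0 := fun h => hpe 2 (by
        rw [he]
        exact Prod.ext rfl (Fin.ext h.symm))
      have h2 : (i : ℕ) ≠ 1 := fun h => hpe 3 (by
        rw [he]
        exact Prod.ext rfl (Fin.ext h.symm))
      omega
    · show (v 2).coeff (i : ℕ) = 0
      rw [d2, coeff_zero]
  obtain ⟨q, hq, hqs, hqe⟩ := key v hv d0 d1 d2
  obtain ⟨q', hq', hqs', hqe'⟩ := key v' hv' d0' d1' d2'
  obtain ⟨x, x', hx, hxq⟩ := g1 q hq q' hq' hqs hqs'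
  have hne : ∀ i : Fin 4, i = 2 ∨ i = 3 → e i ≠ (0, 0) := by
    rintro i (rfl | rfl)
    · rw [he]
      intro h
      have h3 : (1 : Fin 3) = 0 := congrArg Prod.fst h
      exact absurd h3 (by decide)
    · rw [he]
      intro h
      have h3 : (1 : Fin 3) = 0 := congrArg Prod.fst h
      exact absurd h3 (by decide)
  have hrel : ∀ i : Fin 4, i = 2 ∨ i = 3 → x * ((v (e i).1).coeff ((e i).2 : ℕ) : ℚ) =
      x' * ((v' (e i).1).coeff ((e i).2 : ℕ) : ℚ) := by
    intro i hi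
    have h1 := congrFun hxq (finProdFinEquiv (e i))
    rw [Pi.smul_apply, Pi.smul_apply, hqe i (hne i hi), hqe' i (hne i hi), smul_eq_mul, smul_eq_mul] at h1
    exact h1
  have r0 := hrel 2 (Or.inl rfl)
  have r1 := hrel 3 (Or.inr rfl)
  rw [he] at r0 r1
  replace r0 : x * ((v 1).coeff 0 : ℚ) = x' * ((v' 1).coeff 0 : ℚ) := r0
  replace r1 : x * ((v 1).coeff 1 : ℚ) = x' * ((v' 1).coeff 1 : ℚ) := r1
  have hxd : (x.den : ℚ) * x = x.num := by
    rw [mul_comm]
    exact Rat.mul_den_eq_num x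
  have hxd' : (x'.den : ℚ) * x' = x'.num := by
    rw [mul_comm]
    exact Rat.mul_den_eq_num x'
  obtain ⟨c, hc⟩ : ∃ c : ℤ, c = x.num * x'.den := ⟨_, rfl⟩
  obtain ⟨c', hc'⟩ : ∃ c' : ℤ, c' = x'.num * x.den := ⟨_, rfl⟩
  have hcoef : ∀ u u' : ℤ, x * (u : ℚ) = x' * (u' : ℚ) → c * u = c' * u' := by
    intro u u' h
    have h1 : (c : ℚ) * u = c' * u' := by
      rw [hc, hc']
      push_cast
      rw [← hxd, ← hxd']
      linear_combination ((x.den : ℚ) * x'.den) * h
    exact_mod_cast h1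
  refine ⟨c, c', ?_, ?_⟩
  · rcases hx with hx | hx
    · left
      rw [hc]
      exact mul_ne_zero (Rat.num_ne_zero.2 hx) (by exact_mod_cast x'.den_nz)
    · right
      rw [hc']
      exact mul_ne_zero (Rat.num_ne_zero.2 hx) (by exact_mod_cast x.den_nz)
  · have hmem := el_comb hv hv' c (-c')
    have h1 : c • v + (-c') • v' = 0 := by
      refine g2 _ (span_el (Submodule.subset_span hmem)) fun j => ?_
      fin_cases j
      · show (c • v + (-c') • v') 1 = 0
        rw [Pi.add_apply, Pi.smul_apply, Pi.smul_apply]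
        refine poly_zero ?_ ?_ ?_
        · exact (natDegree_add_le _ _).trans (max_le ((natDegree_smul_le _ _).trans d1) ((natDegree_smul_le _ _).trans d1'))
        · rw [coeff_add, coeff_smul, coeff_smul, smul_eq_mul, smul_eq_mul]
          have := hcoef _ _ r0
          linarith
        · rw [coeff_add, coeff_smul, coeff_smul, smul_eq_mul, smul_eq_mul]
          have := hcoef _ _ r1
          linarith
      · show (c • v + (-c') • v') 2 = 0
        rw [Pi.add_apply, Pi.smul_apply, Pi.smul_apply, d2, d2', smul_zero, smul_zero, add_zero]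
    rw [neg_smul, add_neg_eq_zero] at h1
    exact h1

/-- the elements of the exceptional lattice which are forms in `1, w, w ^ 2, t, w t, t'` are on a plane -/
theorem el_five {a b : ℝ} (ha : 0 < a) (hab : a < b) {w t : ℝ} (hw : MT w) (hM : Meas3 w t) (J : ℕ) (t' : ℝ) :
    ∀ᶠ N : ℕ in atTop, ∀ v : Fin 3 → Fin 3 → ℤ[X], (∀ i, v i ∈ El J w ![t, t'] a b N ∧ (v i 0).natDegree ≤ 2 ∧
      (v i 1).natDegree ≤ 1 ∧ (v i 2).natDegree = 0) → ∃ c : Fin 3 → ℤ, c ≠ 0 ∧ ∑ i, c i • v i = 0 := by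
  filter_upwards [el_four ha hab hw hM J t'] with N g v hv
  -- the last coordinates are constant
  obtain ⟨σ, hσ⟩ : ∃ σ : Fin 3 → ℤ, ∀ i, v i 2 = C (σ i) := by
    refine ⟨fun i => (v i 2).coeff 0, fun i => ?_⟩
    exact eq_C_of_natDegree_eq_zero (hv i).2.2.2
  have hcomb : ∀ (i j : Fin 3) (x y : ℤ), x * σ i + y * σ j = 0 → (x • v i + y • v j) ∈ El J w ![t, t'] a b N ∧
      ((x • v i + y • v j) 0).natDegree ≤ 2 ∧ ((x • v i + y • v j) 1).natDegree ≤ 1 ∧ (x • v i + y • v j) 2 = 0 := by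
    intro i j x y hxy
    refine ⟨el_comb (hv i).1 (hv j).1 x y, ?_, ?_, ?_⟩
    · rw [Pi.add_apply, Pi.smul_apply, Pi.smul_apply]
      exact (natDegree_add_le _ _).trans (max_le ((natDegree_smul_le _ _).trans (hv i).2.1)
        ((natDegree_smul_le _ _).trans (hv j).2.1))
    · rw [Pi.add_apply, Pi.smul_apply, Pi.smul_apply]
      exact (natDegree_add_le _ _).trans (max_le ((natDegree_smul_le _ _).trans (hv i).2.2.1)
        ((natDegree_smul_le _ _).trans (hv j).2.2.1))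
    · rw [Pi.add_apply, Pi.smul_apply, Pi.smul_apply, hσ, hσ, smul_C, smul_C, ← C_add, smul_eq_mul, smul_eq_mul, hxy, C_0]
  have hprop : ∀ (i j i' j' : Fin 3) (x y x' y' : ℤ), x * σ i + y * σ j = 0 → x' * σ i' + y' * σ j' = 0 →
      ∃ c c' : ℤ, (c ≠ 0 ∨ c' ≠ 0) ∧ c • (x • v i + y • v j) = c' • (x' • v i' + y' • v j') := by
    intro i j i' j' x y x' y' h1 h2
    obtain ⟨m1, m2, m3, m4⟩ := hcomb i j x y h1
    obtain ⟨n1, n2, n3, n4⟩ := hcomb i' j' x' y' h2
    exact g _ m1 _ n1 m2 m3 m4 n2 n3 n4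
  by_cases h0 : σ 0 = 0
  · by_cases h1 : σ 1 = 0
    · obtain ⟨c, c', hc, h⟩ := hprop 0 0 1 1 1 0 1 0 (by rw [h0]; ring) (by rw [h1]; ring)
      refine ⟨![c, -c', 0], fun h2 => ?_, ?_⟩
      · have e0 := congrFun h2 0
        have e1 := congrFun h2 1
        simp at e0 e1
        rcases hc with hc | hc
        · exact hc e0
        · exact hc e1
      · rw [Fin.sum_univ_three]
        simp only [one_smul, zero_smul, add_zero] at h
        show c • v 0 + (-c') • v 1 + (0 : ℤ) • v 2 = 0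
        rw [h]
        simp
    · obtain ⟨c, c', hc, h⟩ := hprop 0 0 2 1 1 0 (σ 1) (-(σ 2)) (by rw [h0]; ring) (by ring)
      refine ⟨![c, c' * σ 2, -(c' * σ 1)], fun h2 => ?_, ?_⟩
      · have e0 := congrFun h2 0
        have e1 := congrFun h2 2
        simp at e0 e1
        rcases hc with hc | hc
        · exact hc e0
        · rcases e1 with e1 | e1
          · exact hc e1
          · exact h1 e1
      · rw [Fin.sum_univ_three]
        simp only [one_smul, zero_smul, add_zero] at h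
        show c • v 0 + (c' * σ 2) • v 1 + (-(c' * σ 1)) • v 2 = 0
        rw [h]
        module
  · obtain ⟨c, c', hc, h⟩ := hprop 1 0 2 0 (σ 0) (-(σ 1)) (σ 0) (-(σ 2)) (by ring) (by ring)
    refine ⟨![-(c * σ 1) + c' * σ 2, c * σ 0, -(c' * σ 0)], fun h2 => ?_, ?_⟩
    · have e0 := congrFun h2 1
      have e1 := congrFun h2 2
      simp at e0 e1
      rcases hc with hc | hc
      · rcases e0 with e0 | e0
        · exact hc e0
        · exact h0 e0
      · rcases e1 with e1 | e1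
        · exact hc e1
        · exact h0 e1
    · rw [Fin.sum_univ_three]
      show (-(c * σ 1) + c' * σ 2) • v 0 + (c * σ 0) • v 1 + (-(c' * σ 0)) • v 2 = 0
      have h3 : (-(c * σ 1) + c' * σ 2) • v 0 + (c * σ 0) • v 1 + (-(c' * σ 0)) • v 2 =
          c • ((σ 0) • v 1 + (-(σ 1)) • v 0) - c' • ((σ 0) • v 2 + (-(σ 2)) • v 0) := by module
      rw [h3, h, sub_self]

end Run7.h835.RR
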