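import Pool.Agent.Run7.h835.RR.H
import Pool.Agent.Run7.h683.MR.W
import Pool.Agent.V11210.ZZ.Meas

/-!
# The numbers `π² / 30`, `ζ(3)`, `ζ(5)`
-/

set_option autoImplicit false

namespace Run7.h835.RR

open Finset Filter Run7.h683.AB Run7.h683.MR MeasureTheory ProbabilityTheory Topology Polynomial Matrix
open Pool.Agent.Y957.VK (dz mn)

/-- the transcendence measure of `π² / 30` -/
theorem mt_w : MT (Real.pi ^ 2 / 30) := by
  intro D
  obtain ⟨κ, c, hc, h⟩ := (mt_cases (Or.inr (Or.inl rfl)) : MT Real.pi) (2 * D)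
  obtain ⟨B, hB⟩ : ∃ B : ℝ, B = (30 : ℝ) ^ D := ⟨_, rfl⟩
  have hB1 : 1 ≤ B := by
    rw [hB]
    exact one_le_pow₀ (by norm_num)
  have hB0 : 0 < B := by linarith
  refine ⟨κ, c / (B ^ κ * B), by positivity, fun P hP hPD H hH hPH => ?_⟩
  obtain ⟨Q, hQ⟩ : ∃ Q : ℤ[X], Q = ∑ i ∈ range (D + 1), monomial (2 * i) (P.coeff i * 30 ^ (D - i)) := ⟨_, rfl⟩
  have hcoef : ∀ i ≤ D, Q.coeff (2 * i) = P.coeff i * 30 ^ (D - i) := by
    intro i hi
    rw [hQ, finset_sum_coeff, Finset.sum_eq_single i]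
    · rw [coeff_monomial, if_pos rfl]
    · intro j _ hj
      rw [coeff_monomial, if_neg (by omega)]
    · intro h1
      exact absurd (Finset.mem_range.2 (by omega)) h1
  have hQ0 : Q ≠ 0 := by
    intro h0
    apply hP
    refine Polynomial.ext fun i => ?_
    rw [coeff_zero]
    by_cases hi : i ≤ D
    · have h1 := hcoef i hi
      rw [h0, coeff_zero] at h1
      exact (mul_eq_zero.1 h1.symm).resolve_right (by positivity)
    · exact coeff_eq_zero_of_natDegree_lt (by omega)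
  have hQd : Q.natDegree ≤ 2 * D := by
    rw [hQ]
    refine natDegree_sum_le_of_forall_le _ _ fun i hi => (natDegree_monomial_le _).trans ?_
    have := Finset.mem_range.1 hi
    omega
  have hH0 : 0 < H := by linarith
  have hQb : ∀ j, |(Q.coeff j : ℝ)| ≤ B * H := by
    intro j
    by_cases hj : ∃ i, i ≤ D ∧ j = 2 * i
    · obtain ⟨i, hi, rfl⟩ := hj
      rw [hcoef i hi]
      push_cast
      rw [abs_mul, abs_of_pos (by positivity : (0 : ℝ) < 30 ^ (D - i)), mul_comm]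
      have h1 : (30 : ℝ) ^ (D - i) ≤ B := by
        rw [hB]
        exact pow_le_pow_right₀ (by norm_num) (by omega)
      exact mul_le_mul h1 (hPH i) (abs_nonneg _) hB0.le
    · have h1 : Q.coeff j = 0 := by
        rw [hQ, finset_sum_coeff]
        refine Finset.sum_eq_zero fun i hi => ?_
        rw [coeff_monomial, if_neg]
        intro h2
        exact hj ⟨i, by
          have := Finset.mem_range.1 hi
          omega, h2.symm⟩
      rw [h1, Int.cast_zero, abs_zero]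
      positivity
  have hval : aeval Real.pi Q = B * aeval (Real.pi ^ 2 / 30) P := by
    rw [hQ, map_sum, aeval_eq_sum_range' (Nat.lt_succ_of_le hPD), hB, Finset.mul_sum]
    refine Finset.sum_congr rfl fun i hi => ?_
    have hi' : i ≤ D := by
      have := Finset.mem_range.1 hi
      omega
    rw [aeval_monomial, zsmul_eq_mul, div_pow, ← pow_mul]
    have h1 : (30 : ℝ) ^ D = 30 ^ (D - i) * 30 ^ i := by rw [← pow_add, Nat.sub_add_cancel hi']
    rw [h1]
    simp only [algebraMap_int_eq, eq_intCast]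
    push_cast
    field_simp
  have k1 := h Q hQ0 hQd (B * H) (by nlinarith) hQb
  rw [hval, abs_mul, abs_of_pos hB0, mul_pow] at k1
  rw [div_le_iff₀ (by positivity)]
  calc c ≤ B ^ κ * H ^ κ * (B * |aeval (Real.pi ^ 2 / 30) P|) := k1
    _ = _ := by ring

/-- the measure of linear independence of `1, π² / 30, ζ(3)` -/
theorem meas3_w : Meas3 (Real.pi ^ 2 / 30) (∑' k : ℕ, 1 / ((k : ℝ) + 1) ^ 3) := by
  obtain ⟨c, hc, _, k, M1, _⟩ := Pool.Agent.V11210.ZZ.meas
  refine ⟨k, c / (5 ^ k * 5), by positivity, fun a b d H hH hd hb hdH => ?_⟩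
  have k1 := M1 (5 * a) b (5 * d) (5 * H) (by linarith) (by omega) (by linarith) (by
    push_cast
    rw [abs_mul, abs_of_pos (by norm_num : (0 : ℝ) < 5)]
    linarith)
  have k2 : (((5 * a : ℤ) : ℝ) + b * Pool.Agent.V11210.ZZ.zeta 2 + ((5 * d : ℤ) : ℝ) * Pool.Agent.V11210.ZZ.zeta 3) =
      5 * ((a : ℝ) + b * (Real.pi ^ 2 / 30) + d * (∑' k : ℕ, 1 / ((k : ℝ) + 1) ^ 3)) := by
    rw [Pool.Agent.V11210.ZZ.zeta_two]
    push_cast
    unfold Pool.Agent.V11210.ZZ.zeta
    ring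
  rw [k2, abs_mul, abs_of_pos (by norm_num : (0 : ℝ) < 5), mul_pow] at k1
  rw [div_le_iff₀ (by positivity)]
  calc c ≤ _ := k1
    _ = _ := by ring

/-- the form with the coefficients `f` in `ζ(2), ζ(3), ζ(4), ζ(5), ζ(2) ζ(3)` -/
noncomputable def frm (f : Fin 5 → ℤ) : Fin 3 → ℤ[X] :=
  ![C (5 * f 0) * X + C (10 * f 2) * X ^ 2, C (f 1) + C (5 * f 4) * X, C (f 3)]

theorem frm_coeff (f : Fin 5 → ℤ) : (frm f 0).coeff 1 = 5 * f 0 ∧ (frm f 0).coeff 2 = 10 * f 2 ∧
    (frm f 1).coeff 0 = f 1 ∧ (frm f 1).coeff 1 = 5 * f 4 ∧ (frm f 2).coeff 0 = f 3 := by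
  refine ⟨?_, ?_, ?_, ?_, ?_⟩
  · show (C (5 * f 0) * X + C (10 * f 2) * X ^ 2 : ℤ[X]).coeff 1 = 5 * f 0
    simp only [coeff_add, coeff_C_mul, coeff_X_pow, coeff_X]
    simp
  · show (C (5 * f 0) * X + C (10 * f 2) * X ^ 2 : ℤ[X]).coeff 2 = 10 * f 2
    simp only [coeff_add, coeff_C_mul, coeff_X_pow, coeff_X]
    simp
  · show (C (f 1) + C (5 * f 4) * X : ℤ[X]).coeff 0 = f 1
    simp only [coeff_add, coeff_C_mul, coeff_X, coeff_C]
    simp
  · show (C (f 1) + C (5 * f 4) * X : ℤ[X]).coeff 1 = 5 * f 4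
    simp only [coeff_add, coeff_C_mul, coeff_X, coeff_C]
    simp
  · show (C (f 3) : ℤ[X]).coeff 0 = f 3
    exact coeff_C_zero

theorem frm_bound (f : Fin 5 → ℤ) {H : ℕ} (hf : ∀ i, |f i| ≤ (H : ℤ)) (i : Fin 3) :
    (frm f i).natDegree ≤ 2 ∧ ∀ l, |(frm f i).coeff l| ≤ ((10 * H : ℕ) : ℤ) := by
  have h0 : (0 : ℤ) ≤ H := by positivity
  have hz : |(0 : ℤ)| ≤ ((10 * H : ℕ) : ℤ) := by
    rw [abs_zero]
    positivity
  have h5 : ∀ i, |5 * f i| ≤ ((10 * H : ℕ) : ℤ) := by
    intro i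
    rw [abs_mul, abs_of_pos (by norm_num : (0 : ℤ) < 5)]
    have := hf i
    push_cast
    linarith
  have h10 : ∀ i, |10 * f i| ≤ ((10 * H : ℕ) : ℤ) := by
    intro i
    rw [abs_mul, abs_of_pos (by norm_num : (0 : ℤ) < 10)]
    have := hf i
    push_cast
    linarith
  have h1 : ∀ i, |f i| ≤ ((10 * H : ℕ) : ℤ) := by
    intro i
    have := hf i
    push_cast
    linarith
  fin_cases i
  · constructor
    · show (C (5 * f 0) * X + C (10 * f 2) * X ^ 2 : ℤ[X]).natDegree ≤ 2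
      refine (natDegree_add_le _ _).trans (max_le ?_ (natDegree_C_mul_X_pow_le _ _))
      exact ((natDegree_C_mul_le _ _).trans natDegree_X_le).trans (by norm_num)
    · intro l
      show |(C (5 * f 0) * X + C (10 * f 2) * X ^ 2 : ℤ[X]).coeff l| ≤ _
      simp only [coeff_add, coeff_C_mul, coeff_X_pow, coeff_X]
      split_ifs with e1 e2
      · omega
      · rw [mul_one, mul_zero, add_zero]
        exact h5 0
      · rw [mul_one, mul_zero, zero_add]
        exact h10 2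
      · rw [mul_zero, mul_zero, add_zero]
        exact hz
  · constructor
    · show (C (f 1) + C (5 * f 4) * X : ℤ[X]).natDegree ≤ 2
      refine (natDegree_add_le _ _).trans (max_le ?_ ?_)
      · rw [natDegree_C]
        norm_num
      · exact ((natDegree_C_mul_le _ _).trans natDegree_X_le).trans (by norm_num)
    · intro l
      show |(C (f 1) + C (5 * f 4) * X : ℤ[X]).coeff l| ≤ _
      simp only [coeff_add, coeff_C_mul, coeff_X, coeff_C]
      split_ifs with e1 e2 e2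
      · omega
      · rw [mul_zero, add_zero]
        exact h1 1
      · rw [mul_one, zero_add]
        exact h5 4
      · rw [mul_zero, add_zero]
        exact hz
  · constructor
    · show (C (f 3) : ℤ[X]).natDegree ≤ 2
      rw [natDegree_C]
      norm_num
    · intro l
      show |(C (f 3) : ℤ[X]).coeff l| ≤ _
      rw [coeff_C]
      split_ifs
      · exact h1 3
      · exact hz

/-- the vector `c f - κ` -/
noncomputable def cv (f : Fin 5 → ℤ) (c κ : ℤ) : Fin 3 → ℤ[X] :=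
  C c • frm f - (Pi.single 0 (C κ) : Fin 3 → ℤ[X])

theorem cv_coeff (f : Fin 5 → ℤ) (c κ : ℤ) : (cv f c κ 0).coeff 1 = c * (5 * f 0) ∧
    (cv f c κ 0).coeff 2 = c * (10 * f 2) ∧ (cv f c κ 1).coeff 0 = c * f 1 ∧ (cv f c κ 1).coeff 1 = c * (5 * f 4) ∧
      (cv f c κ 2).coeff 0 = c * f 3 := by
  obtain ⟨h1, h2, h3, h4, h5⟩ := frm_coeff f
  have hc : ∀ (i : Fin 3) (l : ℕ), (cv f c κ i).coeff l =
      c * (frm f i).coeff l - ((Pi.single 0 (C κ) : Fin 3 → ℤ[X]) i).coeff l := by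
    intro i l
    rw [cv, Pi.sub_apply, Pi.smul_apply, coeff_sub, smul_eq_mul, coeff_C_mul]
  have hs : ∀ (i : Fin 3) (l : ℕ), (i ≠ 0 ∨ l ≠ 0) → ((Pi.single 0 (C κ) : Fin 3 → ℤ[X]) i).coeff l = 0 := by
    intro i l hil
    rw [Pi.single_apply]
    split_ifs with h
    · rw [coeff_C, if_neg (hil.resolve_left (fun h' => h' h))]
    · exact coeff_zero _
  refine ⟨?_, ?_, ?_, ?_, ?_⟩
  · rw [hc, h1, hs _ _ (Or.inr one_ne_zero), sub_zero]
  · rw [hc, h2, hs _ _ (Or.inr two_ne_zero), sub_zero]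
  · rw [hc, h3, hs _ _ (Or.inl (by decide)), sub_zero]
  · rw [hc, h4, hs _ _ (Or.inl (by decide)), sub_zero]
  · rw [hc, h5, hs _ _ (Or.inl (by decide)), sub_zero]

theorem cv_low (f : Fin 5 → ℤ) (c κ : ℤ) : (cv f c κ 0).natDegree ≤ 2 ∧ (cv f c κ 1).natDegree ≤ 1 ∧
    (cv f c κ 2).natDegree = 0 := by
  refine ⟨?_, ?_, ?_⟩
  · rw [cv, Pi.sub_apply, Pi.smul_apply, smul_eq_mul]
    refine (natDegree_sub_le _ _).trans (max_le ((natDegree_C_mul_le _ _).trans ?_) ?_)
    · show (C (5 * f 0) * X + C (10 * f 2) * X ^ 2 : ℤ[X]).natDegree ≤ 2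
      refine (natDegree_add_le _ _).trans (max_le ?_ (natDegree_C_mul_X_pow_le _ _))
      exact ((natDegree_C_mul_le _ _).trans natDegree_X_le).trans (by norm_num)
    · rw [Pi.single_eq_same, natDegree_C]
      norm_num
  · rw [cv, Pi.sub_apply, Pi.smul_apply, smul_eq_mul, Pi.single_apply, if_neg (by decide), sub_zero]
    refine (natDegree_C_mul_le _ _).trans ?_
    show (C (f 1) + C (5 * f 4) * X : ℤ[X]).natDegree ≤ 1
    refine (natDegree_add_le _ _).trans (max_le ?_ ((natDegree_C_mul_le _ _).trans natDegree_X_le))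
    rw [natDegree_C]
    norm_num
  · rw [cv, Pi.sub_apply, Pi.smul_apply, smul_eq_mul, Pi.single_apply, if_neg (by decide), sub_zero]
    show (C c * C (f 3) : ℤ[X]).natDegree = 0
    rw [← C_mul, natDegree_C]

/-- relations between the vectors `c f - κ` give relations between the forms -/
theorem cv_rel {n : ℕ} (f : Fin n → Fin 5 → ℤ) (c κ x : Fin n → ℤ) (h : ∑ i, x i • cv (f i) (c i) (κ i) = 0) :
    ∑ i, (x i * c i) • f i = 0 := by
  have h1 : ∀ (j : Fin 3) (l : ℕ), ∑ i, x i * (cv (f i) (c i) (κ i) j).coeff l = 0 := by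
    intro j l
    have h2 := congrArg (fun P : ℤ[X] => P.coeff l) (congrFun h j)
    simp only [Finset.sum_apply, Pi.smul_apply, finset_sum_coeff, coeff_smul, smul_eq_mul, Pi.zero_apply,
      coeff_zero] at h2
    exact h2
  funext l
  rw [Finset.sum_apply, Pi.zero_apply]
  simp only [Pi.smul_apply, smul_eq_mul]
  fin_cases l
  · have h2 := h1 0 1
    simp only [(cv_coeff _ _ _).1] at h2
    have h3 : 5 * ∑ i, x i * c i * f i 0 = 0 := by
      rw [← h2, Finset.mul_sum]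
      exact Finset.sum_congr rfl fun i _ => by ring
    exact (mul_eq_zero.1 h3).resolve_left (by norm_num)
  · have h2 := h1 1 0
    simp only [(cv_coeff _ _ _).2.2.1] at h2
    show ∑ i, x i * c i * f i 1 = 0
    rw [← h2]
    exact Finset.sum_congr rfl fun i _ => by ring
  · have h2 := h1 0 2
    simp only [(cv_coeff _ _ _).2.1] at h2
    have h3 : 10 * ∑ i, x i * c i * f i 2 = 0 := by
      rw [← h2, Finset.mul_sum]
      exact Finset.sum_congr rfl fun i _ => by ring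
    exact (mul_eq_zero.1 h3).resolve_left (by norm_num)
  · have h2 := h1 2 0
    simp only [(cv_coeff _ _ _).2.2.2.2] at h2
    show ∑ i, x i * c i * f i 3 = 0
    rw [← h2]
    exact Finset.sum_congr rfl fun i _ => by ring
  · have h2 := h1 1 1
    simp only [(cv_coeff _ _ _).2.2.2.1] at h2
    have h3 : 5 * ∑ i, x i * c i * f i 4 = 0 := by
      rw [← h2, Finset.mul_sum]
      exact Finset.sum_congr rfl fun i _ => by ring
    exact (mul_eq_zero.1 h3).resolve_left (by norm_num)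

/-- the five numbers -/
theorem five {a b : ℝ} (ha : 0 < a) (hab : a < b) {w t : ℝ} (hw : MT w) (hM : Meas3 w t) (t' : ℝ) {p : ℕ → ℕ}
    (h : ∀ (J m L H : ℕ) (ε : ℝ), 0 < ε → ∀ᶠ N : ℕ in atTop,
      ∀ f : Fin m → Fin (2 + 1) → ℤ[X], (∀ j i, (f j i).natDegree ≤ J) → (∀ j i l, |(f j i).coeff l| ≤ (H : ℤ)) →
        IndepMod (El J w ![t, t'] a b N) f → Words p (fun j => ev w ![t, t'] (f j)) L N ε) (L H : ℕ) (ε : ℝ)
    (hε : 0 < ε) : ∀ᶠ N : ℕ in atTop, ∀ Bad : Set (Fin 5 → ℤ), (∀ f ∈ Bad, (∀ i, |f i| ≤ (H : ℤ)) ∧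
      ¬ Words p (fun _ : Fin 1 => ev w ![t, t'] (frm f)) L N ε) →
        (∀ f : Fin 3 → Fin 5 → ℤ, (∀ i, f i ∈ Bad) → ∃ c : Fin 3 → ℤ, c ≠ 0 ∧ ∑ i, c i • f i = 0) ∧
        (∀ f : Fin 2 → Fin 5 → ℤ, (∀ i, f i ∈ Bad ∧ f i 3 = 0) → ∃ c : Fin 2 → ℤ, c ≠ 0 ∧ ∑ i, c i • f i = 0) ∧
        (∀ f ∈ Bad, f 3 = 0 → f 4 = 0 → f 1 = 0 ∨ f 2 = 0 → f = 0) := by
  filter_upwards [h 2 1 L (10 * H) ε hε, el_five ha hab hw hM 2 t', el_four ha hab hw hM 2 t',
    el_two ha hab hw hM 2 t', sat_small ha hab hw 2 ![t, t']] with N g1 g5 g4 g2 g0 Bad hBad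
  have key : ∀ f ∈ Bad, ∃ c κ : ℤ, c ≠ 0 ∧ cv f c κ ∈ El 2 w ![t, t'] a b N := by
    intro f hf
    obtain ⟨hfH, hfW⟩ := hBad f hf
    by_contra hcon
    push Not at hcon
    refine hfW (g1 (fun _ => frm f) (fun _ i => (frm_bound f hfH i).1) (fun _ i => (frm_bound f hfH i).2) ?_)
    intro c κ hc hmem
    refine hcon (c 0) κ (fun h0 => hc ?_) ?_
    · funext i
      rw [Subsingleton.elim i 0]
      exact h0
    · rw [Fin.sum_univ_one] at hmem
      exact hmem
  refine ⟨?_, ?_, ?_⟩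
  · intro f hf
    choose c κ hc hmem using fun i => key (f i) (hf i)
    obtain ⟨x, hx, hxs⟩ := g5 (fun i => cv (f i) (c i) (κ i)) (fun i => ⟨hmem i, cv_low _ _ _⟩)
    refine ⟨fun i => x i * c i, fun h0 => hx ?_, cv_rel f c κ x hxs⟩
    funext i
    exact (mul_eq_zero.1 (congrFun h0 i)).resolve_right (hc i)
  · intro f hf
    choose c κ hc hmem using fun i => key (f i) (hf i).1
    have hz : ∀ i, cv (f i) (c i) (κ i) 2 = 0 := by
      intro i
      have h1 := (cv_coeff (f i) (c i) (κ i)).2.2.2.2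
      rw [(hf i).2, mul_zero] at h1
      have h2 := eq_C_of_natDegree_eq_zero (cv_low (f i) (c i) (κ i)).2.2
      rw [h1, C_0] at h2
      exact h2
    obtain ⟨u, u', hu, hrel⟩ := g4 _ (hmem 0) _ (hmem 1) (cv_low _ _ _).1 (cv_low _ _ _).2.1 (hz 0) (cv_low _ _ _).1
      (cv_low _ _ _).2.1 (hz 1)
    obtain ⟨x, hx⟩ : ∃ x : Fin 2 → ℤ, x = ![u, -u'] := ⟨_, rfl⟩
    have hxs : ∑ i, x i • cv (f i) (c i) (κ i) = 0 := by
      rw [Fin.sum_univ_two, hx]
      show u • cv (f 0) (c 0) (κ 0) + (-u') • cv (f 1) (c 1) (κ 1) = 0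
      rw [hrel]
      simp
    refine ⟨fun i => x i * c i, fun h0 => ?_, cv_rel f c κ x hxs⟩
    have e0 := (mul_eq_zero.1 (congrFun h0 0)).resolve_right (hc 0)
    have e1 := (mul_eq_zero.1 (congrFun h0 1)).resolve_right (hc 1)
    rw [hx] at e0 e1
    have e0' : u = 0 := e0
    have e1' : -u' = 0 := e1
    rcases hu with hu | hu
    · exact hu e0'
    · exact hu (neg_eq_zero.1 e1')
  · intro f hf h3 h4 h12
    obtain ⟨c, κ, hc, hmem⟩ := key f hf
    obtain ⟨c0, c2, c1, c4, c3⟩ := cv_coeff f c κ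
    have hz2 : cv f c κ 2 = 0 := by
      have h2 := eq_C_of_natDegree_eq_zero (cv_low f c κ).2.2
      rw [c3, h3, mul_zero, C_0] at h2
      exact h2
    have hv : cv f c κ = 0 := by
      rcases h12 with h1 | h2
      · refine g0 _ (span_el (Submodule.subset_span hmem)) fun j => ?_
        fin_cases j
        · refine poly_zero (cv_low f c κ).2.1 ?_ ?_
          · show (cv f c κ 1).coeff 0 = 0
            rw [c1, h1, mul_zero]
          · show (cv f c κ 1).coeff 1 = 0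
            rw [c4, h4, mul_zero, mul_zero]
        · exact hz2
      · refine g2 _ hmem ?_ ?_ hz2
        · rw [natDegree_le_iff_coeff_eq_zero]
          intro l hl
          by_cases hl2 : l = 2
          · rw [hl2, c2, h2, mul_zero, mul_zero]
          · exact coeff_eq_zero_of_natDegree_lt (lt_of_le_of_lt (cv_low f c κ).1 (by omega))
        · have h5 : (cv f c κ 1).natDegree ≤ 0 := by
            rw [natDegree_le_iff_coeff_eq_zero]
            intro l hl
            by_cases hl1 : l = 1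
            · rw [hl1, c4, h4, mul_zero, mul_zero]
            · exact coeff_eq_zero_of_natDegree_lt (lt_of_le_of_lt (cv_low f c κ).2.1 (by omega))
          omega
    rw [hv] at c0 c1 c2
    have z : ∀ l (i : Fin 3), ((0 : Fin 3 → ℤ[X]) i).coeff l = 0 := fun l i => by rw [Pi.zero_apply, coeff_zero]
    rw [z] at c0 c1 c2
    have e0 := (mul_eq_zero.1 c0.symm).resolve_left hc
    have e1 := (mul_eq_zero.1 c1.symm).resolve_left hc
    have e2 := (mul_eq_zero.1 c2.symm).resolve_left hc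
    funext i
    fin_cases i
    · show f 0 = 0
      omega
    · exact e1
    · show f 2 = 0
      omega
    · exact h3
    · exact h4

end Run7.h835.RR
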